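import Mathlib

/-!
# Classes of intersection graphs and the counterexample
-/

set_option autoImplicit false

namespace Pool.Agent.K9h64.LG

/-- An L-shape with corner `(a, b)`: a horizontal segment from the corner to the right and a
vertical segment from the corner upwards, both closed and of positive length. -/
def IsLShape (S : Set (ℝ × ℝ)) : Prop :=
  ∃ a d b c : ℝ, a < d ∧ b < c ∧
    S = {p | (p.2 = b ∧ a ≤ p.1 ∧ p.1 ≤ d) ∨ (p.1 = a ∧ b ≤ p.2 ∧ p.2 ≤ c)}

/-- A Gamma-shape with corner `(a, c)`: a horizontal segment from the corner to the right and a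
vertical segment from the corner downwards, both closed and of positive length. -/
def IsGammaShape (S : Set (ℝ × ℝ)) : Prop :=
  ∃ a d b c : ℝ, a < d ∧ b < c ∧
    S = {p | (p.2 = c ∧ a ≤ p.1 ∧ p.1 ≤ d) ∨ (p.1 = a ∧ b ≤ p.2 ∧ p.2 ≤ c)}

/-- A straight-line segment of positive length in the plane. -/
def IsSegment (S : Set (ℝ × ℝ)) : Prop :=
  ∃ p q : ℝ × ℝ, p ≠ q ∧ S = segment ℝ p q

/-- A path of the integer grid with at most one bend, which has integer endpoints and is not a
single point: a horizontal segment from `(x, y)` to `(x', y)` together with a vertical segment from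
`(x, y)` to `(x, y')`, where one of the two may be a point. -/
def IsGridPath (S : Set (ℝ × ℝ)) : Prop :=
  ∃ x x' y y' : ℤ, (x ≠ x' ∨ y ≠ y') ∧
    S = {p : ℝ × ℝ | (p.2 = (y : ℝ) ∧ p.1 ∈ Set.uIcc (x : ℝ) (x' : ℝ)) ∨
      (p.1 = (x : ℝ) ∧ p.2 ∈ Set.uIcc (y : ℝ) (y' : ℝ))}

/-- The family `S` of subsets of the plane is a representation of `G`. -/
def Represents {V : Type} (G : SimpleGraph V) (S : V → Set (ℝ × ℝ)) : Prop :=
  ∀ u v : V, u ≠ v → (G.Adj u v ↔ (S u ∩ S v).Nonempty)

/-- The class of intersection graphs of L-shapes and Gamma-shapes. -/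
def LGamma {V : Type} (G : SimpleGraph V) : Prop :=
  ∃ S : V → Set (ℝ × ℝ), (∀ v, IsLShape (S v) ∨ IsGammaShape (S v)) ∧ Represents G S

/-- The class SEG. -/
def Seg {V : Type} (G : SimpleGraph V) : Prop :=
  ∃ S : V → Set (ℝ × ℝ), (∀ v, IsSegment (S v)) ∧ Represents G S

/-- The class of one-bend VPG graphs. -/
def OneBend {V : Type} (G : SimpleGraph V) : Prop :=
  ∃ S : V → Set (ℝ × ℝ), (∀ v, IsGridPath (S v)) ∧ Represents G S

/-- The Cartesian product of a triangle and a complete graph on four vertices in which every vertex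
is replaced by six non-adjacent twins: `(r, c, i)` and `(r', c', i')` are adjacent if exactly one of
`r = r'` and `c = c'` holds. -/
def twinRook : SimpleGraph (Fin 3 × Fin 4 × Fin 6) where
  Adj u v := (u.1 = v.1 ∧ u.2.1 ≠ v.2.1) ∨ (u.1 ≠ v.1 ∧ u.2.1 = v.2.1)
  symm := ⟨fun u v h => by
    rcases h with h | h
    · exact Or.inl ⟨h.1.symm, h.2.symm⟩
    · exact Or.inr ⟨h.1.symm, h.2.symm⟩⟩
  loopless := ⟨fun u h => by
    rcases h with h | h
    · exact h.2 rfl
    · exact h.1 rfl⟩

end Pool.Agent.K9h64.LG
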