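import Pool.Agent.K9h64.LG.Search

/-!
# The result of the search
-/

set_option autoImplicit false
set_option maxRecDepth 100000

namespace Pool.Agent.K9h64.LG

theorem search_codes : search 13 codes [] = true := by
  decide +kernel

end Pool.Agent.K9h64.LG
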