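import Pool.Agent.K9h64.LG.Search

/-!
# Soundness of the search

A pair of orders with the properties `R1`, `R2` and `N` leads to a branch of the search which does
not fail.
-/

set_option autoImplicit false

namespace Pool.Agent.K9h64.LG

theorem nadj_eq (a b : ℕ) : nadj a b = !adj a b := by
  unfold nadj adj
  cases Nat.beq (Nat.land a b) 0 <;> rfl

theorem adj_comm (a b : ℕ) : adj a b = adj b a := by
  unfold adj
  have h : Nat.land a b = Nat.land b a := Nat.land_comm a b
  rw [h]

/-- insertion at all positions finds every position -/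
theorem insAll_false (v : ℕ) (k : List ℕ → Bool) (s2 : List ℕ) :
    ∀ (s p s1 : List ℕ), s = s1 ++ s2 → k (p.reverse ++ s1 ++ v :: s2) = false →
      insAll v k s p = false := by
  intro s
  induction s with
  | nil =>
    intro p s1 hs hk
    have h := List.append_eq_nil_iff.1 hs.symm
    rw [h.1, h.2] at hk
    have e : insAll v k [] p = k (revApp p [v]) := rfl
    rw [e, revApp_eq]
    simpa using hk
  | cons a s ih =>
    intro p s1 hs hk
    have e : insAll v k (a :: s) p =
      cond (k (revApp p (v :: a :: s))) (insAll v k s (a :: p)) false := rfl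
    cases s1 with
    | nil =>
      have h2 : s2 = a :: s := by simpa using hs.symm
      rw [h2] at hk
      have h3 : k (revApp p (v :: a :: s)) = false := by
        rw [revApp_eq]
        simpa using hk
      rw [e, h3]; rfl
    | cons b s1 =>
      have h2 : a = b ∧ s = s1 ++ s2 := by simpa using hs
      have h3 : insAll v k s (a :: p) = false := by
        apply ih (a :: p) s1 h2.2
        rw [h2.1]
        simpa using hk
      rw [e, h3]
      cases k (revApp p (v :: a :: s)) <;> rfl

/-- splitting a list -/
theorem split_filter (R : ℕ → ℕ → Prop) (q : ℕ → Bool) (l : List ℕ) (hl : l.Pairwise R)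
    (h : ∀ a ∈ l, ∀ b ∈ l, R a b → q b = true → q a = true) :
    l = l.filter q ++ l.filter (fun a => !q a) := by
  induction l with
  | nil => rfl
  | cons a t ih =>
    rw [List.pairwise_cons] at hl
    have ih' := ih hl.2 (fun x hx y hy => h x (List.mem_cons_of_mem _ hx) y
      (List.mem_cons_of_mem _ hy))
    by_cases hq : q a = true
    · rw [List.filter_cons, List.filter_cons]
      simp only [hq, if_true, Bool.not_true, Bool.false_eq_true, if_false, List.cons_append]
      rw [← ih']
    · have hq' : q a = false := by simpa using hq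
      have h1 : t.filter q = [] := by
        rw [List.filter_eq_nil_iff]
        intro b hb hqb
        exact hq (h a (List.mem_cons_self) b (List.mem_cons_of_mem _ hb) (hl.1 b hb) hqb)
      have h2 : t.filter (fun a => !q a) = t := by
        rw [h1] at ih'
        simpa using ih'.symm
      rw [List.filter_cons, List.filter_cons]
      simp only [hq', Bool.false_eq_true, if_false, Bool.not_false, if_true]
      rw [h1, h2]; rfl

theorem takeWhile_app (q : ℕ → Bool) (l m : List ℕ) (hl : ∀ a ∈ l, q a = true)
    (hm : ∀ a ∈ m.head?, q a = false) : (l ++ m).takeWhile q = l := by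
  induction l with
  | nil =>
    cases m with
    | nil => rfl
    | cons b m =>
      have : q b = false := hm b (by simp)
      simp [this]
  | cons a l ih =>
    have h1 : q a = true := hl a (List.mem_cons_self)
    rw [List.cons_append, List.takeWhile_cons, if_pos h1, ih (fun b hb => hl b
      (List.mem_cons_of_mem _ hb))]

theorem dropWhile_app (q : ℕ → Bool) (l m : List ℕ) (hl : ∀ a ∈ l, q a = true)
    (hm : ∀ a ∈ m.head?, q a = false) : (l ++ m).dropWhile q = m := by
  induction l with
  | nil =>
    cases m with
    | nil => rfl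
    | cons b m =>
      have : q b = false := hm b (by simp)
      simp [this]
  | cons a l ih =>
    have h1 : q a = true := hl a (List.mem_cons_self)
    rw [List.cons_append, List.dropWhile_cons, if_pos h1, ih (fun b hb => hl b
      (List.mem_cons_of_mem _ hb))]

theorem tryBlk_eq (v : ℕ) (k : List ℕ → Bool) (p m : List ℕ) : tryBlk v k p m =
    cond ((m.dropWhile (adj v)).all (nadj v))
      (cond (k (p ++ v :: (m.takeWhile (adj v) ++ m.dropWhile (adj v))))
        (k (p ++ (m.takeWhile (adj v) ++ v :: m.dropWhile (adj v)))) false) true := by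
  unfold tryBlk
  rw [fl_eq, fl_eq, all'_eq, app'_eq, app'_eq, app'_eq, app'_eq, take'_eq, drop'_eq]

theorem tryAll_eq (v : ℕ) (k : List ℕ → Bool) (l : List ℕ) : tryAll v k l =
    cond ((l.dropWhile (nadj v)).isEmpty) (insAll v k l [])
      (tryBlk v k (l.takeWhile (nadj v)) (l.dropWhile (nadj v))) := by
  unfold tryAll
  rw [fl_eq, fl_eq, isNil_eq, drop'_eq, take'_eq]

/-- block of neighbours after `v` -/
theorem tryAll_after (v : ℕ) (k : List ℕ → Bool) (P B s : List ℕ)
    (hP : ∀ a ∈ P, adj v a = false) (hB : ∀ a ∈ B, adj v a = true) (hB0 : B ≠ [])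
    (hs : ∀ a ∈ s, adj v a = false) (hk : k (P ++ v :: (B ++ s)) = false) :
    tryAll v k (P ++ (B ++ s)) = false := by
  have hn : ∀ a, nadj v a = !adj v a := nadj_eq v
  have hhead : ∀ a ∈ (B ++ s).head?, nadj v a = false := by
    intro a ha
    cases B with
    | nil => exact absurd rfl hB0
    | cons b B =>
      have : a = b := by simpa using ha.symm
      rw [this, hn, hB b (List.mem_cons_self)]; rfl
  have hhead2 : ∀ a ∈ s.head?, adj v a = false := by
    intro a ha
    exact hs a (List.mem_of_mem_head? ha)
  have hP' : ∀ a ∈ P, nadj v a = true := by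
    intro a ha
    rw [hn, hP a ha]; rfl
  have e1 := dropWhile_app (nadj v) P (B ++ s) hP' hhead
  have e2 := takeWhile_app (nadj v) P (B ++ s) hP' hhead
  have e3 := dropWhile_app (adj v) B s hB hhead2
  have e4 := takeWhile_app (adj v) B s hB hhead2
  have e5 : (B ++ s).isEmpty = false := by
    cases B with
    | nil => exact absurd rfl hB0
    | cons b B => rfl
  rw [tryAll_eq, e1, e2, e5, cond_false, tryBlk_eq, e3, e4, hk, cond_false]
  have e6 : s.all (nadj v) = true := by
    rw [List.all_eq_true]
    intro a ha
    rw [hn, hs a ha]; rfl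
  rw [e6, cond_true]

/-- block of neighbours before `v` -/
theorem tryAll_before (v : ℕ) (k : List ℕ → Bool) (p B S : List ℕ)
    (hp : ∀ a ∈ p, adj v a = false) (hB : ∀ a ∈ B, adj v a = true) (hB0 : B ≠ [])
    (hS : ∀ a ∈ S, adj v a = false) (hk : k (p ++ (B ++ v :: S)) = false) :
    tryAll v k (p ++ (B ++ S)) = false := by
  have hn : ∀ a, nadj v a = !adj v a := nadj_eq v
  have hhead : ∀ a ∈ (B ++ S).head?, nadj v a = false := by
    intro a ha
    cases B with
    | nil => exact absurd rfl hB0
    | cons b B =>
      have : a = b := by simpa using ha.symm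
      rw [this, hn, hB b (List.mem_cons_self)]; rfl
  have hhead2 : ∀ a ∈ S.head?, adj v a = false := by
    intro a ha
    exact hS a (List.mem_of_mem_head? ha)
  have hP' : ∀ a ∈ p, nadj v a = true := by
    intro a ha
    rw [hn, hp a ha]; rfl
  have e1 := dropWhile_app (nadj v) p (B ++ S) hP' hhead
  have e2 := takeWhile_app (nadj v) p (B ++ S) hP' hhead
  have e3 := dropWhile_app (adj v) B S hB hhead2
  have e4 := takeWhile_app (adj v) B S hB hhead2
  have e5 : (B ++ S).isEmpty = false := by
    cases B with
    | nil => exact absurd rfl hB0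
    | cons b B => rfl
  rw [tryAll_eq, e1, e2, e5, cond_false, tryBlk_eq, e3, e4, hk]
  have e6 : S.all (nadj v) = true := by
    rw [List.all_eq_true]
    intro a ha
    rw [hn, hS a ha]; rfl
  rw [e6, cond_true]
  cases k (p ++ v :: (B ++ S)) <;> rfl

/-- no neighbours -/
theorem tryAll_none (v : ℕ) (k : List ℕ → Bool) (P S : List ℕ)
    (hP : ∀ a ∈ P ++ S, adj v a = false) (hk : k (P ++ v :: S) = false) :
    tryAll v k (P ++ S) = false := by
  have hn : ∀ a, nadj v a = !adj v a := nadj_eq v
  have e1 : (P ++ S).dropWhile (nadj v) = [] := by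
    rw [List.dropWhile_eq_nil_iff]
    intro a ha
    rw [hn, hP a ha]; rfl
  rw [tryAll_eq, e1]
  have e2 : (([] : List ℕ).isEmpty) = true := rfl
  rw [e2, cond_true]
  apply insAll_false v k S (P ++ S) [] P rfl
  simpa using hk

theorem btw_eq (x : ℕ) (l : List ℕ) : btw x l = (((l.dropWhile (nadj x)).reverse).dropWhile
    (nadj x)).filter (nadj x) := by
  unfold btw
  rw [filter'_eq, drop'_eq, drop'_eq, revApp_eq, List.append_nil]

/-- after dropping, each member is the first one, which is not dropped, or comes after it -/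
theorem dropWhile_spec (R : ℕ → ℕ → Prop) (q : ℕ → Bool) (l : List ℕ) (hl : l.Pairwise R) :
    ∀ b ∈ l.dropWhile q, b ∈ l ∧ (q b = true → ∃ u ∈ l, q u = false ∧ R u b) := by
  induction l with
  | nil => intro b hb; simp at hb
  | cons a t ih =>
    rw [List.pairwise_cons] at hl
    intro b hb
    rw [List.dropWhile_cons] at hb
    by_cases hq : q a = true
    · rw [if_pos hq] at hb
      obtain ⟨h1, h2⟩ := ih hl.2 b hb
      refine ⟨List.mem_cons_of_mem _ h1, fun h => ?_⟩
      obtain ⟨u, hu, hu2⟩ := h2 h
      exact ⟨u, List.mem_cons_of_mem _ hu, hu2⟩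
    · rw [if_neg hq] at hb
      refine ⟨hb, fun h => ?_⟩
      rcases List.mem_cons.1 hb with h1 | h1
      · rw [h1] at h; exact absurd h hq
      · exact ⟨a, List.mem_cons_self, by simpa using hq, hl.1 b h1⟩

theorem dropWhile_pairwise (R : ℕ → ℕ → Prop) (q : ℕ → Bool) (l : List ℕ) (hl : l.Pairwise R) :
    (l.dropWhile q).Pairwise R :=
  List.Pairwise.sublist (List.dropWhile_sublist _) hl

theorem btw_spec (R : ℕ → ℕ → Prop) (x : ℕ) (l : List ℕ) (hl : l.Pairwise R) :
    ∀ b ∈ btw x l, b ∈ l ∧ adj x b = false ∧ (∃ u ∈ l, adj x u = true ∧ R u b) ∧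
      (∃ u ∈ l, adj x u = true ∧ R b u) := by
  have hn : ∀ a, nadj x a = !adj x a := nadj_eq x
  intro b hb
  rw [btw_eq, List.mem_filter] at hb
  obtain ⟨hb1, hb2⟩ := hb
  have hr : ((l.dropWhile (nadj x)).reverse).Pairwise (fun a c => R c a) := by
    rw [List.pairwise_reverse]
    exact dropWhile_pairwise R _ l hl
  obtain ⟨h1, h2⟩ := dropWhile_spec (fun a c => R c a) (nadj x) _ hr b hb1
  rw [List.mem_reverse] at h1
  obtain ⟨h3, h4⟩ := dropWhile_spec R (nadj x) l hl b h1
  refine ⟨h3, ?_, ?_, ?_⟩
  · rw [hn] at hb2
    simpa using hb2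
  · obtain ⟨u, hu, hu2, hu3⟩ := h4 hb2
    refine ⟨u, hu, ?_, hu3⟩
    rw [hn] at hu2
    simpa using hu2
  · obtain ⟨u, hu, hu2, hu3⟩ := h2 hb2
    rw [List.mem_reverse] at hu
    refine ⟨u, (dropWhile_spec R (nadj x) l hl u hu).1, ?_, hu3⟩
    rw [hn] at hu2
    simpa using hu2

theorem search_succ (n : ℕ) (U l : List ℕ) : search (n + 1) U l =
    cond (isNil U) false (cond (prune U l) true (all' (fun v =>
      cond (allowed v U)
      (fl (filter' (fun a => (Nat.beq a v).not) U) fun U' =>
      tryAll v (fun l' => fl (filter' (fun w => any' (adj w) U') l') fun l'' =>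
        search n U' l'') l)
      true) U)) := rfl

section Sound

variable {Ω : Type*} [LinearOrder Ω]

/-- the properties of the two orders of the vertices -/
structure Good (α : ℕ → ℕ) (β : ℕ → Ω) (U0 : List ℕ) : Prop where
  ainj : ∀ a ∈ U0, ∀ b ∈ U0, α a = α b → a = b
  binj : ∀ a ∈ U0, ∀ b ∈ U0, β a = β b → a = b
  R1 : ∀ v ∈ U0, (∀ u ∈ U0, adj u v = true → α u < α v → β v < β u) ∨
    (∀ u ∈ U0, adj u v = true → α u < α v → β u < β v)
  R2 : ∀ v ∈ U0, ∀ u ∈ U0, ∀ w ∈ U0, ∀ z ∈ U0, adj u v = true → α u < α v → adj w v = false →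
    α w < α v → adj w z = true → α v < α z → ¬ (β v < β w ∧ β w < β u) ∧
      ¬ (β u < β w ∧ β w < β v)
  N : ∀ v ∈ U0, ∀ U : List ℕ, (∀ a ∈ U, α v ≤ α a) → allowed v U = true

/-- the state is the one of the two orders -/
structure State (α : ℕ → ℕ) (β : ℕ → Ω) (U0 U l : List ℕ) : Prop where
  sub : ∀ a ∈ U, a ∈ U0
  lt : ∀ a ∈ U0, a ∉ U → ∀ b ∈ U, α a < α b
  sorted : l.Pairwise (fun a b => β a < β b)
  alive : ∀ a, a ∈ l ↔ a ∈ U0 ∧ a ∉ U ∧ ∃ z ∈ U, adj a z = true

variable {α : ℕ → ℕ} {β : ℕ → Ω} {U0 : List ℕ}

/-- a vertex which waits for another one comes later -/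
theorem waits (hG : Good α β U0) {U l : List ℕ} (hS : State α β U0 U l) {x y : ℕ}
    (hx : x ∈ U) (hy : y ∈ U) (hxy : x ≠ y) (h : (btw x l).any (adj y) = true) : α y < α x := by
  rw [List.any_eq_true] at h
  obtain ⟨b, hb, hyb⟩ := h
  obtain ⟨hb1, hb2, ⟨u, hu, hu2, hu3⟩, ⟨w, hw, hw2, hw3⟩⟩ :=
    btw_spec (fun a b => β a < β b) x l hS.sorted b hb
  by_contra hlt
  have hne : α x ≠ α y := fun e => hxy (hG.ainj x (hS.sub x hx) y (hS.sub y hy) e)
  have hlt' : α x < α y := by omega
  have hbl := (hS.alive b).1 hb1
  have hul := (hS.alive u).1 hu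
  have hwl := (hS.alive w).1 hw
  have hbx : α b < α x := hS.lt b hbl.1 hbl.2.1 x hx
  have hux : α u < α x := hS.lt u hul.1 hul.2.1 x hx
  have hwx : α w < α x := hS.lt w hwl.1 hwl.2.1 x hx
  have hby : adj b y = true := by rw [adj_comm]; exact hyb
  have hbx' : adj b x = false := by rw [adj_comm]; exact hb2
  have hux' : adj u x = true := by rw [adj_comm]; exact hu2
  have hwx' : adj w x = true := by rw [adj_comm]; exact hw2
  have r2u := hG.R2 x (hS.sub x hx) u hul.1 b hbl.1 y (hS.sub y hy) hux' hux hbx' hbx hby hlt'
  have r2w := hG.R2 x (hS.sub x hx) w hwl.1 b hbl.1 y (hS.sub y hy) hwx' hwx hbx' hbx hby hlt'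
  rcases hG.R1 x (hS.sub x hx) with r | r
  · have h1 := r u hul.1 hux' hux
    exact r2w.1 ⟨lt_trans h1 hu3, hw3⟩
  · have h1 := r w hwl.1 hwx' hwx
    exact r2u.2 ⟨hu3, lt_trans hw3 h1⟩

theorem prune_false (hG : Good α β U0) {U l : List ℕ} (hS : State α β U0 U l) :
    prune U l = false := by
  by_contra h
  have h' : prune U l = true := by simpa using h
  unfold prune at h'
  rw [any'_eq, List.any_eq_true] at h'
  obtain ⟨x, hx, hx2⟩ := h'
  rw [fl_eq] at hx2
  have hx3 : (isNil (btw x l)) = false := by
    by_contra hc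
    rw [Bool.not_eq_false] at hc
    rw [hc] at hx2
    exact absurd hx2 (by simp)
  rw [hx3, cond_false, any'_eq, List.any_eq_true] at hx2
  obtain ⟨y, hy, hy2⟩ := hx2
  have hxy : Nat.beq x y = false := by
    by_contra hc
    rw [Bool.not_eq_false] at hc
    rw [hc] at hy2
    exact absurd hy2 (by simp)
  rw [hxy, cond_false, any'_eq, any'_eq] at hy2
  have h1 : (btw x l).any (adj y) = true := by
    by_contra hc
    rw [Bool.not_eq_true] at hc
    rw [hc] at hy2
    exact absurd hy2 (by simp)
  rw [h1, cond_true] at hy2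
  have hne : x ≠ y := by
    intro e
    rw [e] at hxy
    rw [Nat.beq_refl] at hxy
    exact absurd hxy (by simp)
  have a1 := waits hG hS hx hy hne h1
  have a2 := waits hG hS hy hx hne.symm hy2
  omega

/-- the next state -/
theorem next_state (hG : Good α β U0) {U l : List ℕ} (hS : State α β U0 U l) {v : ℕ} (hv : v ∈ U)
    (hmin : ∀ a ∈ U, α v ≤ α a) :
    State α β U0 (U.filter (fun a => !(Nat.beq a v)))
      ((l.filter (fun a => decide (β a < β v)) ++ v :: l.filter (fun a => !decide (β a < β v))).filter
        (fun w => (U.filter (fun a => !(Nat.beq a v))).any (adj w))) := by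
  have hU : ∀ a, a ∈ U.filter (fun a => !(Nat.beq a v)) ↔ a ∈ U ∧ a ≠ v := by
    intro a
    rw [List.mem_filter]
    constructor
    · rintro ⟨h1, h2⟩
      refine ⟨h1, fun e => ?_⟩
      rw [e, Nat.beq_refl] at h2
      exact absurd h2 (by simp)
    · rintro ⟨h1, h2⟩
      refine ⟨h1, ?_⟩
      have : Nat.beq a v = false := by
        by_contra hc
        rw [Bool.not_eq_false] at hc
        exact h2 (Nat.eq_of_beq_eq_true hc)
      rw [this]; rfl
  have hvU0 := hS.sub v hv
  have hvl : v ∉ l := fun h => ((hS.alive v).1 h).2.1 hv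
  refine ⟨?_, ?_, ?_, ?_⟩
  · intro a ha
    exact hS.sub a ((hU a).1 ha).1
  · intro a ha hna b hb
    rw [hU] at hb hna
    by_cases hav : a = v
    · have h1 := hmin b hb.1
      have h2 : α v ≠ α b := fun e => hb.2 (hG.ainj v hvU0 b (hS.sub b hb.1) e).symm
      rw [hav]
      omega
    · have : a ∉ U := fun h => hna ⟨h, hav⟩
      exact hS.lt a ha this b hb.1
  · apply List.Pairwise.filter
    rw [List.pairwise_append]
    refine ⟨List.Pairwise.filter _ hS.sorted, ?_, ?_⟩
    · rw [List.pairwise_cons]
      refine ⟨?_, List.Pairwise.filter _ hS.sorted⟩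
      intro a ha
      rw [List.mem_filter] at ha
      have h1 : ¬ β a < β v := by simpa using ha.2
      have h2 : β a ≠ β v := fun e => hvl ((hG.binj a ((hS.alive a).1 ha.1).1 v hvU0 e) ▸ ha.1)
      exact lt_of_le_of_ne (not_lt.1 h1) (Ne.symm h2)
    · intro a ha b hb
      rw [List.mem_filter] at ha
      have h1 : β a < β v := by simpa using ha.2
      rcases List.mem_cons.1 hb with h | h
      · rw [h]; exact h1
      · rw [List.mem_filter] at h
        have h2 : ¬ β b < β v := by simpa using h.2
        exact lt_of_lt_of_le h1 (not_lt.1 h2)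
  · intro a
    rw [List.mem_filter, List.any_eq_true]
    constructor
    · rintro ⟨h1, z, hz, hz2⟩
      have h3 : a = v ∨ a ∈ l := by
        rw [List.mem_append, List.mem_cons, List.mem_filter, List.mem_filter] at h1
        rcases h1 with h1 | h1 | h1
        · exact Or.inr h1.1
        · exact Or.inl h1
        · exact Or.inr h1.1
      refine ⟨?_, ?_, z, hz, hz2⟩
      · rcases h3 with h3 | h3
        · rw [h3]; exact hvU0
        · exact ((hS.alive a).1 h3).1
      · rw [hU]
        rintro ⟨h4, h5⟩
        rcases h3 with h3 | h3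
        · exact h5 h3
        · exact ((hS.alive a).1 h3).2.1 h4
    · rintro ⟨h1, h2, z, hz, hz2⟩
      refine ⟨?_, z, hz, hz2⟩
      rw [List.mem_append, List.mem_cons, List.mem_filter, List.mem_filter]
      by_cases hav : a = v
      · exact Or.inr (Or.inl hav)
      · have h3 : a ∉ U := fun h => h2 ((hU a).2 ⟨h, hav⟩)
        have h4 : a ∈ l := (hS.alive a).2 ⟨h1, h3, z, ((hU z).1 hz).1, hz2⟩
        by_cases h5 : β a < β v
        · exact Or.inl ⟨h4, by simpa using h5⟩
        · exact Or.inr (Or.inr ⟨h4, by simpa using h5⟩)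

/-- the right position of `v` is tried -/
theorem tryAll_false (hG : Good α β U0) {U l : List ℕ} (hS : State α β U0 U l) {v : ℕ}
    (hv : v ∈ U) (hmin : ∀ a ∈ U, α v ≤ α a) (k : List ℕ → Bool)
    (hk : k (l.filter (fun a => decide (β a < β v)) ++
      v :: l.filter (fun a => !decide (β a < β v))) = false) : tryAll v k l = false := by
  have hvU0 := hS.sub v hv
  have hvl : v ∉ l := fun h => ((hS.alive v).1 h).2.1 hv
  have hdec : l = l.filter (fun a => decide (β a < β v)) ++
      l.filter (fun a => !decide (β a < β v)) := by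
    apply split_filter (fun a b => β a < β b) _ l hS.sorted
    intro a _ b _ hab hb
    have : β b < β v := by simpa using hb
    simpa using lt_trans hab this
  set P := l.filter (fun a => decide (β a < β v)) with hPdef
  set S := l.filter (fun a => !decide (β a < β v)) with hSdef
  have hPm : ∀ a, a ∈ P → a ∈ l ∧ β a < β v := by
    intro a ha
    rw [hPdef, List.mem_filter] at ha
    exact ⟨ha.1, by simpa using ha.2⟩
  have hSm : ∀ a, a ∈ S → a ∈ l ∧ β v < β a := by
    intro a ha
    rw [hSdef, List.mem_filter] at ha
    have h1 : ¬ β a < β v := by simpa using ha.2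
    have h2 : β a ≠ β v := fun e => hvl ((hG.binj a ((hS.alive a).1 ha.1).1 v hvU0 e) ▸ ha.1)
    exact ⟨ha.1, lt_of_le_of_ne (not_lt.1 h1) (Ne.symm h2)⟩
  have hPs : P.Pairwise (fun a b => β a < β b) := List.Pairwise.filter _ hS.sorted
  have hSs : S.Pairwise (fun a b => β a < β b) := List.Pairwise.filter _ hS.sorted
  -- a member of the list which is not adjacent to `v` is not between
  have key : ∀ w ∈ l, adj v w = false → ∀ u ∈ l, adj v u = true →
      ¬ (β v < β w ∧ β w < β u) ∧ ¬ (β u < β w ∧ β w < β v) := by
    intro w hw hwv u hu huv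
    obtain ⟨hw1, hw2, z, hz, hz2⟩ := (hS.alive w).1 hw
    obtain ⟨hu1, hu2, _⟩ := (hS.alive u).1 hu
    have hzv : z ≠ v := by
      intro e
      rw [e, adj_comm, hwv] at hz2
      exact absurd hz2 (by simp)
    have h1 := hmin z hz
    have h2 : α v ≠ α z := fun e => hzv (hG.ainj v hvU0 z (hS.sub z hz) e).symm
    exact hG.R2 v hvU0 u hu1 w hw1 z (hS.sub z hz) (by rw [adj_comm]; exact huv)
      (hS.lt u hu1 hu2 v hv) (by rw [adj_comm]; exact hwv) (hS.lt w hw1 hw2 v hv) hz2 (by omega)
  have hcomp : (fun a => !adj v a) = nadj v := by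
    funext a
    rw [nadj_eq]
  by_cases hnone : ∀ a ∈ l, adj v a = false
  · rw [hdec]
    apply tryAll_none v k P S _ hk
    rw [← hdec]
    exact hnone
  · push Not at hnone
    obtain ⟨u0, hu0, hu0v⟩ := hnone
    have hu0v' : adj v u0 = true := by simpa using hu0v
    rcases hG.R1 v hvU0 with r | r
    · -- the neighbours are after `v`
      have hab : ∀ u ∈ l, adj v u = true → β v < β u := by
        intro u hu huv
        obtain ⟨hu1, hu2, _⟩ := (hS.alive u).1 hu
        exact r u hu1 (by rw [adj_comm]; exact huv) (hS.lt u hu1 hu2 v hv)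
      have hS2 : S = S.filter (adj v) ++ S.filter (fun a => !adj v a) := by
        apply split_filter (fun a b => β a < β b) _ S hSs
        intro a ha b hb hlt hb2
        by_contra hc
        have hc' : adj v a = false := by simpa using hc
        exact (key a (hSm a ha).1 hc' b (hSm b hb).1 hb2).1 ⟨(hSm a ha).2, hlt⟩
      rw [hdec, hS2]
      apply tryAll_after v k P (S.filter (adj v)) (S.filter (fun a => !adj v a))
      · intro a ha
        by_contra hc
        have hc' : adj v a = true := by simpa using hc
        exact absurd (hPm a ha).2 (not_lt.2 (hab a (hPm a ha).1 hc').le)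
      · intro a ha
        exact (List.mem_filter.1 ha).2
      · intro he
        have h1 : u0 ∈ S := by
          rw [hSdef, List.mem_filter]
          exact ⟨hu0, by simpa using (hab u0 hu0 hu0v').le⟩
        have h2 : u0 ∈ S.filter (adj v) := List.mem_filter.2 ⟨h1, hu0v'⟩
        rw [he] at h2
        simp at h2
      · intro a ha
        have := (List.mem_filter.1 ha).2
        simpa using this
      · rw [← hS2]
        exact hk
    · -- the neighbours are before `v`
      have hab : ∀ u ∈ l, adj v u = true → β u < β v := by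
        intro u hu huv
        obtain ⟨hu1, hu2, _⟩ := (hS.alive u).1 hu
        exact r u hu1 (by rw [adj_comm]; exact huv) (hS.lt u hu1 hu2 v hv)
      have hP2 : P = P.filter (fun a => !adj v a) ++ P.filter (adj v) := by
        have h0 := split_filter (fun a b => β a < β b) (fun a => !adj v a) P hPs ?_
        · have e : P.filter (fun a => !(!adj v a)) = P.filter (adj v) := by
            congr 1
            funext a
            rw [Bool.not_not]
          rw [e] at h0
          exact h0
        · intro a ha b hb hlt hb2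
          by_contra hc
          have hc' : adj v a = true := by simpa using hc
          have hb3 : adj v b = false := by simpa using hb2
          exact (key b (hPm b hb).1 hb3 a (hPm a ha).1 hc').2 ⟨hlt, (hPm b hb).2⟩
      rw [hdec, hP2, List.append_assoc]
      apply tryAll_before v k (P.filter (fun a => !adj v a)) (P.filter (adj v)) S
      · intro a ha
        have := (List.mem_filter.1 ha).2
        simpa using this
      · intro a ha
        exact (List.mem_filter.1 ha).2
      · intro he
        have h1 : u0 ∈ P := by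
          rw [hPdef, List.mem_filter]
          exact ⟨hu0, by simpa using (hab u0 hu0 hu0v')⟩
        have h2 : u0 ∈ P.filter (adj v) := List.mem_filter.2 ⟨h1, hu0v'⟩
        rw [he] at h2
        simp at h2
      · intro a ha
        by_contra hc
        have hc' : adj v a = true := by simpa using hc
        exact absurd (hSm a ha).2 (not_lt.2 (hab a (hSm a ha).1 hc').le)
      · rw [← List.append_assoc, ← hP2]
        exact hk

/-- the search does not fail at a state of two orders -/
theorem sound (hG : Good α β U0) : ∀ (n : ℕ) (U l : List ℕ), U.length < n →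
    State α β U0 U l → search n U l = false := by
  intro n
  induction n with
  | zero => intro U l h _; omega
  | succ n ih =>
    intro U l hlen hS
    rw [search_succ]
    cases hU : U with
    | nil => rfl
    | cons u0 U1 =>
      rw [← hU]
      have e1 : isNil U = false := by rw [hU]; rfl
      rw [e1, cond_false, prune_false hG hS, cond_false, all'_eq]
      -- the next vertex
      have hne : U.toFinset.Nonempty := ⟨u0, by rw [hU]; simp⟩
      obtain ⟨v, hv, hvmin⟩ := Finset.exists_min_image U.toFinset α hne
      have hvU : v ∈ U := List.mem_toFinset.1 hv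
      have hmin : ∀ a ∈ U, α v ≤ α a := fun a ha => hvmin a (List.mem_toFinset.2 ha)
      rw [List.all_eq_false]
      refine ⟨v, hvU, ?_⟩
      have hal := hG.N v (hS.sub v hvU) U hmin
      rw [hal, cond_true, fl_eq, filter'_eq]
      have key : tryAll v (fun l' => fl (filter' (fun w => any' (adj w)
          (List.filter (fun a => (Nat.beq a v).not) U)) l') fun l'' =>
          search n (List.filter (fun a => (Nat.beq a v).not) U) l'') l = false := by
        apply tryAll_false hG hS hvU hmin
        simp only [fl_eq, filter'_eq, any'_eq]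
        apply ih
        · have h1 : (U.filter (fun a => (Nat.beq a v).not)).length < U.length := by
            rw [List.length_filter_lt_length_iff_exists]
            refine ⟨v, hvU, ?_⟩
            rw [Nat.beq_refl]
            simp
          omega
        · exact next_state hG hS hvU hmin
      rw [key]
      simp

/-- two good orders contradict the result of the search -/
theorem search_sound (hG : Good α β codes) : search 13 codes [] = false := by
  apply sound hG 13 codes [] (by decide)
  refine ⟨fun a h => h, fun a h h' => absurd h h', List.Pairwise.nil, ?_⟩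
  intro a
  constructor
  · intro h; simp at h
  · rintro ⟨h1, h2, _⟩
    exact absurd h1 h2

end Sound

end Pool.Agent.K9h64.LG
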