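import Pool.Agent.K9h64.LG.Defs
import Pool.Agent.K9h64.LG.Sound
import Pool.Agent.K9h64.LG.Run

/-!
# The graph has no representation by L-shapes and Gamma-shapes
-/

set_option autoImplicit false

namespace Pool.Agent.K9h64.LG

/-- the data of an L-shape or a Gamma-shape -/
structure Shape where
  x : ℝ
  x' : ℝ
  lo : ℝ
  hi : ℝ
  y : ℝ
  hx : x < x'
  hy : lo < hi
  hc : y = lo ∨ y = hi

def Shape.carrier (s : Shape) : Set (ℝ × ℝ) :=
  {p | (p.2 = s.y ∧ s.x ≤ p.1 ∧ p.1 ≤ s.x') ∨ (p.1 = s.x ∧ s.lo ≤ p.2 ∧ p.2 ≤ s.hi)}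

theorem exists_shape {S : Set (ℝ × ℝ)} (h : IsLShape S ∨ IsGammaShape S) :
    ∃ s : Shape, S = s.carrier := by
  rcases h with ⟨a, d, b, c, had, hbc, hS⟩ | ⟨a, d, b, c, had, hbc, hS⟩
  · exact ⟨⟨a, d, b, c, b, had, hbc, Or.inl rfl⟩, hS⟩
  · exact ⟨⟨a, d, b, c, c, had, hbc, Or.inr rfl⟩, hS⟩

theorem Shape.y_mem (s : Shape) : s.lo ≤ s.y ∧ s.y ≤ s.hi := by
  rcases s.hc with h | h
  · exact ⟨h.ge, h.le.trans s.hy.le⟩
  · exact ⟨s.hy.le.trans h.ge, h.le⟩

theorem K1 (s t : Shape) (h : (s.carrier ∩ t.carrier).Nonempty) (hx : s.x < t.x) :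
    t.lo ≤ s.y ∧ s.y ≤ t.hi ∧ t.x ≤ s.x' := by
  obtain ⟨p, hp, hq⟩ := h
  obtain ⟨ty1, ty2⟩ := t.y_mem
  rcases hp with ⟨h1, h2, h3⟩ | ⟨h1, h2, h3⟩ <;> rcases hq with ⟨h4, h5, h6⟩ | ⟨h4, h5, h6⟩ <;>
    refine ⟨?_, ?_, ?_⟩ <;> linarith

theorem K2 (s t : Shape) (h : ¬ (s.carrier ∩ t.carrier).Nonempty) (h1 : s.x ≤ t.x)
    (h2 : t.x ≤ s.x') : s.y < t.lo ∨ t.hi < s.y := by
  by_contra hc
  push Not at hc
  exact h ⟨(t.x, s.y), Or.inl ⟨rfl, h1, h2⟩, Or.inr ⟨rfl, hc.1, hc.2⟩⟩

theorem K3 (s t : Shape) (h : (s.carrier ∩ t.carrier).Nonempty) :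
    s.lo ≤ t.hi ∧ t.lo ≤ s.hi ∨ s.x ≠ t.x := by
  obtain ⟨p, hp, hq⟩ := h
  obtain ⟨ty1, ty2⟩ := t.y_mem
  obtain ⟨sy1, sy2⟩ := s.y_mem
  by_cases hx : s.x = t.x
  · left
    rcases hp with ⟨h1, h2, h3⟩ | ⟨h1, h2, h3⟩ <;> rcases hq with ⟨h4, h5, h6⟩ | ⟨h4, h5, h6⟩ <;>
      refine ⟨?_, ?_⟩ <;> linarith
  · exact Or.inr hx

theorem K4 (s t : Shape) (h : ¬ (s.carrier ∩ t.carrier).Nonempty) (hx : s.x = t.x) :
    s.hi < t.lo ∨ t.hi < s.lo := by
  by_contra hc
  push Not at hc
  apply h
  refine ⟨(s.x, max s.lo t.lo), Or.inr ⟨rfl, le_max_left _ _, max_le s.hy.le hc.1⟩,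
    Or.inr ⟨hx, le_max_right _ _, max_le hc.2 t.hy.le⟩⟩

/-- adjacency in the Cartesian product of a triangle and a complete graph on four vertices -/
def rook (a b : Fin 3 × Fin 4) : Prop :=
  (a.1 = b.1 ∧ a.2 ≠ b.2) ∨ (a.1 ≠ b.1 ∧ a.2 = b.2)

instance (a b : Fin 3 × Fin 4) : Decidable (rook a b) := by
  unfold rook; infer_instance

theorem rook_symm (a b : Fin 3 × Fin 4) (h : rook a b) : rook b a := by
  rcases h with h | h
  · exact Or.inl ⟨h.1.symm, h.2.symm⟩
  · exact Or.inr ⟨h.1.symm, h.2.symm⟩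

theorem rook_ne (a b : Fin 3 × Fin 4) (h : rook a b) : a ≠ b := by
  rintro rfl
  rcases h with h | h
  · exact h.2 rfl
  · exact h.1 rfl

theorem rook_deg (a : Fin 3 × Fin 4) : (Finset.univ.filter (fun b => rook a b)).card ≤ 5 := by
  revert a
  decide

section Extract

variable (s : Fin 3 × Fin 4 → Fin 6 → Shape)

/-- the family represents the graph -/
def Rep : Prop :=
  ∀ a i b j, (a, i) ≠ (b, j) → (rook a b ↔ ((s a i).carrier ∩ (s b j).carrier).Nonempty)

variable {s}

/-- two pairs of twins -/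
theorem twins (h : Rep s) {a b : Fin 3 × Fin 4} (hab : rook a b) {i i' j j' : Fin 6}
    (hi : i ≠ i') (hj : j ≠ j') (h1 : (s a i).x = (s a i').x) (h2 : (s b j).x = (s b j').x) :
    (s a i).x ≠ (s b j).x := by
  intro h3
  have hne := rook_ne a b hab
  have e : ∀ k l : Fin 6, ((a, k) : (Fin 3 × Fin 4) × Fin 6) ≠ (b, l) := by
    intro k l hkl
    exact hne (Prod.mk.inj hkl).1
  have e1 : ((a, i) : (Fin 3 × Fin 4) × Fin 6) ≠ (a, i') := fun hh => hi (Prod.mk.inj hh).2
  have e2 : ((b, j) : (Fin 3 × Fin 4) × Fin 6) ≠ (b, j') := fun hh => hj (Prod.mk.inj hh).2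
  have n1 := K4 _ _ (fun hh => rook_ne a a ((h a i a i' e1).2 hh) rfl) h1
  have n2 := K4 _ _ (fun hh => rook_ne b b ((h b j b j' e2).2 hh) rfl) h2
  have m1 := (K3 _ _ ((h a i b j (e i j)).1 hab)).resolve_right (fun hh => hh h3)
  have m2 := (K3 _ _ ((h a i b j' (e i j')).1 hab)).resolve_right (fun hh => hh (h3.trans h2))
  have m3 := (K3 _ _ ((h a i' b j (e i' j)).1 hab)).resolve_right
    (fun hh => hh (h1.symm.trans h3))
  have m4 := (K3 _ _ ((h a i' b j' (e i' j')).1 hab)).resolve_right
    (fun hh => hh (h1.symm.trans (h3.trans h2)))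
  rcases n1 with n1 | n1 <;> rcases n2 with n2 | n2 <;> linarith [m1.1, m1.2, m2.1, m2.2, m3.1,
    m3.2, m4.1, m4.2]

/-- a choice of one twin for each vertex such that adjacent vertices have different abscissas -/
theorem exists_choice (h : Rep s) : ∃ f : Fin 3 × Fin 4 → Fin 6,
    ∀ a b, rook a b → (s a (f a)).x ≠ (s b (f b)).x := by
  classical
  set heavy : Fin 3 × Fin 4 → Prop := fun a => ∃ i j, j ≠ i ∧ (s a j).x = (s a i).x with hheavy
  have key : ∀ T : Finset (Fin 3 × Fin 4), ∃ f : Fin 3 × Fin 4 → Fin 6,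
      (∀ a, heavy a → ∃ j, j ≠ f a ∧ (s a j).x = (s a (f a)).x) ∧
      ∀ a b, (a ∈ T ∨ heavy a) → (b ∈ T ∨ heavy b) → rook a b →
        (s a (f a)).x ≠ (s b (f b)).x := by
    intro T
    induction T using Finset.induction_on with
    | empty =>
      have h0 : ∀ a, ∃ i, heavy a → ∃ j, j ≠ i ∧ (s a j).x = (s a i).x := by
        intro a
        by_cases ha : heavy a
        · obtain ⟨i, hi⟩ := ha
          exact ⟨i, fun _ => hi⟩
        · exact ⟨0, fun hh => absurd hh ha⟩
      choose f hf using h0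
      refine ⟨f, hf, ?_⟩
      intro a b ha hb hab
      have ha' : heavy a := ha.resolve_left (by simp)
      have hb' : heavy b := hb.resolve_left (by simp)
      obtain ⟨j, hj, hj2⟩ := hf a ha'
      obtain ⟨k, hk, hk2⟩ := hf b hb'
      exact twins h hab hj.symm hk.symm hj2.symm hk2.symm
    | insert v T hv ih =>
      obtain ⟨f, hf1, hf2⟩ := ih
      by_cases hhv : heavy v
      · refine ⟨f, hf1, ?_⟩
        intro a b ha hb hab
        apply hf2 a b _ _ hab
        · rcases ha with ha | ha
          · rcases Finset.mem_insert.1 ha with ha | ha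
            · rw [ha]; exact Or.inr hhv
            · exact Or.inl ha
          · exact Or.inr ha
        · rcases hb with hb | hb
          · rcases Finset.mem_insert.1 hb with hb | hb
            · rw [hb]; exact Or.inr hhv
            · exact Or.inl hb
          · exact Or.inr hb
      · -- a free value
        have hinj : Function.Injective (fun i => (s v i).x) := by
          intro i j hij
          by_contra hne
          exact hhv ⟨j, i, hne, hij⟩
        have hcard : ((Finset.univ.filter (fun b => rook v b)).image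
            (fun b => (s b (f b)).x)).card <
            ((Finset.univ : Finset (Fin 6)).image (fun i => (s v i).x)).card := by
          rw [Finset.card_image_of_injective _ hinj]
          refine lt_of_le_of_lt (Finset.card_image_le.trans (rook_deg v)) ?_
          simp
        obtain ⟨y, hy1, hy2⟩ := Finset.exists_mem_notMem_of_card_lt_card hcard
        obtain ⟨i, _, hi⟩ := Finset.mem_image.1 hy1
        have hfree : ∀ b, rook v b → (s v i).x ≠ (s b (f b)).x := by
          intro b hb hc
          apply hy2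
          rw [Finset.mem_image]
          exact ⟨b, by simpa using hb, by rw [← hi]; exact hc.symm⟩
        refine ⟨Function.update f v i, ?_, ?_⟩
        · intro a ha
          have hav : a ≠ v := fun e => hhv (e ▸ ha)
          rw [Function.update_of_ne hav]
          exact hf1 a ha
        · intro a b ha hb hab
          have hab' := rook_ne a b hab
          by_cases hav : a = v
          · have hbv : b ≠ v := fun e => hab' (hav.trans e.symm)
            rw [Function.update_of_ne hbv, hav, Function.update_self]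
            exact hfree b (hav ▸ hab)
          · by_cases hbv : b = v
            · rw [Function.update_of_ne hav, hbv, Function.update_self]
              exact (hfree a (rook_symm _ _ (hbv ▸ hab))).symm
            · rw [Function.update_of_ne hav, Function.update_of_ne hbv]
              apply hf2 a b _ _ hab
              · rcases ha with ha | ha
                · exact Or.inl ((Finset.mem_insert.1 ha).resolve_left hav)
                · exact Or.inr ha
              · rcases hb with hb | hb
                · exact Or.inl ((Finset.mem_insert.1 hb).resolve_left hbv)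
                · exact Or.inr hb
  obtain ⟨f, _, hf⟩ := key Finset.univ
  exact ⟨f, fun a b hab => hf a b (Or.inl (Finset.mem_univ _)) (Or.inl (Finset.mem_univ _)) hab⟩

end Extract

section Orders

/-- a representation of the small graph in which adjacent vertices have different abscissas -/
structure BaseRep (t : Fin 3 × Fin 4 → Shape) : Prop where
  rep : ∀ a b, a ≠ b → (rook a b ↔ ((t a).carrier ∩ (t b).carrier).Nonempty)
  ne : ∀ a b, rook a b → (t a).x ≠ (t b).x

variable {t : Fin 3 × Fin 4 → Shape}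

/-- the order of the abscissas without ties -/
theorem exists_alpha (t : Fin 3 × Fin 4 → Shape) : ∃ α : Fin 3 × Fin 4 → ℕ,
    Function.Injective α ∧ ∀ a b, (t a).x < (t b).x → α a < α b := by
  classical
  let e : Fin 3 × Fin 4 ≃ Fin 12 := finProdFinEquiv
  let k : Fin 3 × Fin 4 → ℝ ×ₗ Fin 12 := fun a => toLex ((t a).x, e a)
  have hk : Function.Injective k := by
    intro a b hab
    have h1 : (((t a).x, e a) : ℝ × Fin 12) = ((t b).x, e b) := toLex.injective hab
    exact e.injective (Prod.mk.inj h1).2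
  refine ⟨fun a => (Finset.univ.filter (fun b => k b < k a)).card, ?_, ?_⟩
  · have hmono : ∀ a b, k a < k b → (Finset.univ.filter (fun c => k c < k a)).card <
        (Finset.univ.filter (fun c => k c < k b)).card := by
      intro a b hab
      apply Finset.card_lt_card
      rw [Finset.ssubset_iff_of_subset]
      · exact ⟨a, by simpa using hab, by simp⟩
      · intro c hc
        simp only [Finset.mem_filter, Finset.mem_univ, true_and] at hc ⊢
        exact lt_trans hc hab
    intro a b hab
    rcases lt_trichotomy (k a) (k b) with h | h | h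
    · exact absurd hab (ne_of_lt (hmono a b h))
    · exact hk h
    · exact absurd hab (ne_of_gt (hmono b a h))
  · intro a b hab
    have hab' : k a < k b := by
      rw [Prod.Lex.toLex_lt_toLex]
      exact Or.inl hab
    apply Finset.card_lt_card
    rw [Finset.ssubset_iff_of_subset]
    · exact ⟨a, by simpa using hab', by simp⟩
    · intro c hc
      simp only [Finset.mem_filter, Finset.mem_univ, true_and] at hc ⊢
      exact lt_trans hc hab'

/-- the second coordinate of the order of the heights -/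
noncomputable def tie (t : Fin 3 × Fin 4 → Shape) (α : Fin 3 × Fin 4 → ℕ) (a : Fin 3 × Fin 4) :
    ℤ := by
  classical
  exact if (t a).y = (t a).lo then -((α a : ℤ) + 1) else (α a : ℤ) + 1

/-- the order of the heights -/
noncomputable def height (t : Fin 3 × Fin 4 → Shape) (α : Fin 3 × Fin 4 → ℕ)
    (a : Fin 3 × Fin 4) : ℝ ×ₗ ℤ := toLex ((t a).y, tie t α a)

theorem tie_lo {α : Fin 3 × Fin 4 → ℕ} {a : Fin 3 × Fin 4} (h : (t a).y = (t a).lo) :
    tie t α a = -((α a : ℤ) + 1) := by
  unfold tie
  exact if_pos h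

theorem tie_hi {α : Fin 3 × Fin 4 → ℕ} {a : Fin 3 × Fin 4} (h : (t a).y = (t a).hi) :
    tie t α a = (α a : ℤ) + 1 := by
  unfold tie
  apply if_neg
  intro h2
  have := (t a).hy
  linarith

theorem height_inj {α : Fin 3 × Fin 4 → ℕ} (hα : Function.Injective α) :
    Function.Injective (height t α) := by
  intro a b hab
  have h1 : (((t a).y, tie t α a) : ℝ × ℤ) = ((t b).y, tie t α b) := toLex.injective hab
  have h2 := (Prod.mk.inj h1).2
  apply hα
  rcases (t a).hc with ha | ha <;> rcases (t b).hc with hb | hb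
  · rw [tie_lo ha, tie_lo hb] at h2; omega
  · rw [tie_lo ha, tie_hi hb] at h2; omega
  · rw [tie_hi ha, tie_lo hb] at h2; omega
  · rw [tie_hi ha, tie_hi hb] at h2; omega

theorem height_lt {α : Fin 3 × Fin 4 → ℕ} {a b : Fin 3 × Fin 4} (h : (t a).y < (t b).y) :
    height t α a < height t α b := by
  unfold height
  rw [Prod.Lex.toLex_lt_toLex]
  exact Or.inl h

theorem x_lt (hB : BaseRep t) {α : Fin 3 × Fin 4 → ℕ}
    (hα2 : ∀ a b, (t a).x < (t b).x → α a < α b) {a b : Fin 3 × Fin 4} (hab : rook a b)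
    (h : α a < α b) : (t a).x < (t b).x := by
  rcases lt_trichotomy (t a).x (t b).x with h1 | h1 | h1
  · exact h1
  · exact absurd h1 (hB.ne a b hab)
  · have := hα2 b a h1
    omega

theorem base_R1 (hB : BaseRep t) {α : Fin 3 × Fin 4 → ℕ}
    (hα2 : ∀ a b, (t a).x < (t b).x → α a < α b) (v : Fin 3 × Fin 4) :
    (∀ u, rook u v → α u < α v → height t α v < height t α u) ∨
    (∀ u, rook u v → α u < α v → height t α u < height t α v) := by
  rcases (t v).hc with hv | hv
  · left
    intro u huv hlt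
    have hx := x_lt hB hα2 huv hlt
    obtain ⟨h1, h2, h3⟩ := K1 _ _ ((hB.rep u v (rook_ne _ _ huv)).1 huv) hx
    unfold height
    rw [Prod.Lex.toLex_lt_toLex]
    rcases lt_or_eq_of_le h1 with h4 | h4
    · left
      show (t v).y < (t u).y
      rw [hv]; exact h4
    · right
      refine ⟨?_, ?_⟩
      · show (t v).y = (t u).y
        rw [hv]; exact h4
      · show tie t α v < tie t α u
        rw [tie_lo hv]
        rcases (t u).hc with hu | hu
        · rw [tie_lo hu]; omega
        · rw [tie_hi hu]; omega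
  · right
    intro u huv hlt
    have hx := x_lt hB hα2 huv hlt
    obtain ⟨h1, h2, h3⟩ := K1 _ _ ((hB.rep u v (rook_ne _ _ huv)).1 huv) hx
    unfold height
    rw [Prod.Lex.toLex_lt_toLex]
    rcases lt_or_eq_of_le h2 with h4 | h4
    · left
      show (t u).y < (t v).y
      rw [hv]; exact h4
    · right
      refine ⟨?_, ?_⟩
      · show (t u).y = (t v).y
        rw [hv]; exact h4
      · show tie t α u < tie t α v
        rw [tie_hi hv]
        rcases (t u).hc with hu | hu
        · rw [tie_lo hu]; omega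
        · rw [tie_hi hu]; omega

theorem base_R2 (hB : BaseRep t) {α : Fin 3 × Fin 4 → ℕ}
    (hα2 : ∀ a b, (t a).x < (t b).x → α a < α b) (v u w z : Fin 3 × Fin 4)
    (huv : rook u v) (h1 : α u < α v) (hwv : ¬ rook w v) (h2 : α w < α v) (hwz : rook w z)
    (h3 : α v < α z) :
    ¬ (height t α v < height t α w ∧ height t α w < height t α u) ∧
      ¬ (height t α u < height t α w ∧ height t α w < height t α v) := by
  have hx := x_lt hB hα2 huv h1
  obtain ⟨a1, a2, _⟩ := K1 _ _ ((hB.rep u v (rook_ne _ _ huv)).1 huv) hx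
  have hxz := x_lt hB hα2 hwz (h2.trans h3)
  obtain ⟨_, _, b3⟩ := K1 _ _ ((hB.rep w z (rook_ne _ _ hwz)).1 hwz) hxz
  have c1 : (t w).x ≤ (t v).x := by
    by_contra hc
    have := hα2 v w (not_le.1 hc)
    omega
  have c2 : (t v).x ≤ (t z).x := by
    by_contra hc
    have := hα2 z v (not_le.1 hc)
    omega
  have hne : w ≠ v := by
    rintro rfl
    omega
  have hy := (t v).y_mem
  rcases K2 _ _ (fun hh => hwv ((hB.rep w v hne).2 hh)) c1 (c2.trans b3) with d | d
  · have e1 : height t α w < height t α v := height_lt (lt_of_lt_of_le d hy.1)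
    have e2 : height t α w < height t α u := height_lt (lt_of_lt_of_le d a1)
    exact ⟨fun hh => lt_asymm hh.1 e1, fun hh => lt_asymm hh.1 e2⟩
  · have e1 : height t α v < height t α w := height_lt (lt_of_le_of_lt hy.2 d)
    have e2 : height t α u < height t α w := height_lt (lt_of_le_of_lt a2 d)
    exact ⟨fun hh => lt_asymm hh.2 e2, fun hh => lt_asymm hh.2 e1⟩

end Orders

section Norm

/-- a permutation which sorts the values of an injective function with minima -/
theorem exists_sort {n : ℕ} (m : Fin n → ℕ) (hm : Function.Injective m) :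
    ∃ σ : Equiv.Perm (Fin n), ∀ i j, i < j → m (σ i) < m (σ j) := by
  refine ⟨Tuple.sort m, ?_⟩
  intro i j hij
  have h1 := Tuple.monotone_sort m hij.le
  refine lt_of_le_of_ne h1 ?_
  intro h2
  exact hij.ne ((Tuple.sort m).injective (hm h2))

/-- the least values of rows in the order of the rows -/
theorem exists_norm {p q : ℕ} (hq : 0 < q) (α : Fin p × Fin q → ℕ) (hα : Function.Injective α) :
    ∃ σ : Equiv.Perm (Fin p), ∀ i j, i < j → ∀ c, ∃ c', α (σ i, c') < α (σ j, c) := by
  have : Nonempty (Fin q) := ⟨⟨0, hq⟩⟩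
  have h0 : ∀ i, ∃ c, ∀ c', α (i, c) ≤ α (i, c') := by
    intro i
    obtain ⟨c, _, hc⟩ := Finset.exists_min_image (Finset.univ : Finset (Fin q))
      (fun c => α (i, c)) Finset.univ_nonempty
    exact ⟨c, fun c' => hc c' (Finset.mem_univ _)⟩
  choose f hf using h0
  obtain ⟨σ, hσ⟩ := exists_sort (fun i => α (i, f i)) (by
    intro i j hij
    exact (Prod.mk.inj (hα hij)).1)
  refine ⟨σ, fun i j hij c => ⟨f (σ i), ?_⟩⟩
  exact lt_of_lt_of_le (hσ i j hij) (hf (σ j) c)

end Norm

end Pool.Agent.K9h64.LG
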