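import Pool.Agent.K9h64.LG.Defs

/-!
# Representations of the graph by segments and by one-bend paths
-/

set_option autoImplicit false

namespace Pool.Agent.K9h64.LG

/-! ### Segments -/

/-- the orientation of three points -/
def ori (p q r : ℝ × ℝ) : ℝ := (q.1 - p.1) * (r.2 - p.2) - (q.2 - p.2) * (r.1 - p.1)

theorem ori_zero {p q x : ℝ × ℝ} (h : x ∈ segment ℝ p q) : ori p q x = 0 := by
  obtain ⟨a, b, _, _, hab, rfl⟩ := h
  have ha : a = 1 - b := by linarith
  subst ha
  simp only [ori, Prod.fst_add, Prod.smul_fst, Prod.snd_add, Prod.smul_snd, smul_eq_mul]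
  ring

theorem ori_comb {p q r s x : ℝ × ℝ} (h : x ∈ segment ℝ r s) :
    ∃ a b : ℝ, 0 ≤ a ∧ 0 ≤ b ∧ a + b = 1 ∧ ori p q x = a * ori p q r + b * ori p q s := by
  obtain ⟨a, b, h1, h2, hab, rfl⟩ := h
  refine ⟨a, b, h1, h2, hab, ?_⟩
  have ha : a = 1 - b := by linarith
  subst ha
  simp only [ori, Prod.fst_add, Prod.smul_fst, Prod.snd_add, Prod.smul_snd, smul_eq_mul]
  ring

theorem seg_sep {p q r s : ℝ × ℝ} (h : (0 < ori p q r ∧ 0 < ori p q s) ∨
    (ori p q r < 0 ∧ ori p q s < 0)) : ¬ (segment ℝ p q ∩ segment ℝ r s).Nonempty := by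
  rintro ⟨x, hx1, hx2⟩
  have h0 := ori_zero hx1
  obtain ⟨a, b, ha, hb, hab, hc⟩ := ori_comb (p := p) (q := q) hx2
  rw [h0] at hc
  rcases h with ⟨h1, h2⟩ | ⟨h1, h2⟩
  · rcases lt_or_eq_of_le ha with ha' | ha'
    · nlinarith [mul_pos ha' h1, mul_nonneg hb h2.le]
    · have : b = 1 := by linarith
      rw [← ha', this] at hc
      linarith
  · rcases lt_or_eq_of_le ha with ha' | ha'
    · nlinarith [mul_pos ha' (neg_pos.2 h1), mul_nonneg hb (neg_pos.2 h2).le]
    · have : b = 1 := by linarith
      rw [← ha', this] at hc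
      linarith

theorem seg_meet {p q r s : ℝ × ℝ} (h1 : ori p q r * ori p q s < 0)
    (h2 : ori r s p * ori r s q < 0) : (segment ℝ p q ∩ segment ℝ r s).Nonempty := by
  have hE : ori p q s - ori p q r = ori r s p - ori r s q := by
    unfold ori; ring
  set A := ori p q r with hA
  set B := ori p q s with hB
  set C := ori r s p with hC
  set D := ori r s q with hD
  have hE0 : C - D ≠ 0 := by
    intro h
    have : C = D := by linarith
    rw [this] at h2
    nlinarith [mul_self_nonneg D]
  have hu0 : 0 ≤ C / (C - D) ∧ C / (C - D) ≤ 1 := by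
    rcases lt_or_gt_of_ne hE0 with h | h
    · have hC : C < 0 := by
        by_contra hc
        push Not at hc
        have : 0 < D := by linarith
        nlinarith [mul_nonneg hc this.le]
      have hD : 0 < D := by
        by_contra hc
        push Not at hc
        nlinarith [mul_nonneg (neg_nonneg.2 hC.le) (neg_nonneg.2 hc)]
      exact ⟨div_nonneg_of_nonpos hC.le h.le, by rw [div_le_one_of_neg h]; linarith⟩
    · have hC : 0 < C := by
        by_contra hc
        push Not at hc
        have : D < 0 := by linarith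
        nlinarith [mul_nonneg (neg_nonneg.2 hc) (neg_nonneg.2 this.le)]
      have hD : D < 0 := by
        by_contra hc
        push Not at hc
        nlinarith [mul_nonneg hC.le hc]
      exact ⟨div_nonneg hC.le h.le, by rw [div_le_one h]; linarith⟩
  have ht0 : 0 ≤ -A / (C - D) ∧ -A / (C - D) ≤ 1 := by
    rw [← hE] at hE0 ⊢
    rcases lt_or_gt_of_ne hE0 with h | h
    · have hA' : 0 < A := by
        by_contra hc
        push Not at hc
        have : B < 0 := by linarith
        nlinarith [mul_nonneg (neg_nonneg.2 hc) (neg_nonneg.2 this.le)]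
      have hB' : B < 0 := by
        by_contra hc
        push Not at hc
        nlinarith [mul_nonneg hA'.le hc]
      exact ⟨div_nonneg_of_nonpos (by linarith) h.le, by rw [div_le_one_of_neg h]; linarith⟩
    · have hA' : A < 0 := by
        by_contra hc
        push Not at hc
        have : 0 < B := by linarith
        nlinarith [mul_nonneg hc this.le]
      have hB' : 0 < B := by
        by_contra hc
        push Not at hc
        nlinarith [mul_nonneg (neg_nonneg.2 hA'.le) (neg_nonneg.2 hc)]
      exact ⟨div_nonneg (by linarith) h.le, by rw [div_le_one h]; linarith⟩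
  set u := C / (C - D) with hu
  set t := -A / (C - D) with ht
  have hu2 : u * (C - D) = C := by rw [hu]; field_simp
  have ht2 : t * (C - D) = -A := by rw [ht]; field_simp
  refine ⟨(1 - u) • p + u • q, ⟨1 - u, u, by linarith [hu0.2], hu0.1, by ring, rfl⟩,
    ⟨1 - t, t, by linarith [ht0.2], ht0.1, by ring, ?_⟩⟩
  ext
  · simp only [Prod.fst_add, Prod.smul_fst, smul_eq_mul]
    have e : ((1 - t) * r.1 + t * s.1) * (C - D) = ((1 - u) * p.1 + u * q.1) * (C - D) := by
      have e1 : ((1 - t) * r.1 + t * s.1) * (C - D) =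
        r.1 * (C - D) + (t * (C - D)) * (s.1 - r.1) := by ring
      have e2 : ((1 - u) * p.1 + u * q.1) * (C - D) =
        p.1 * (C - D) + (u * (C - D)) * (q.1 - p.1) := by ring
      rw [e1, e2, hu2, ht2, hA, hC, hD]
      unfold ori
      ring
    exact mul_right_cancel₀ hE0 e
  · simp only [Prod.snd_add, Prod.smul_snd, smul_eq_mul]
    have e : ((1 - t) * r.2 + t * s.2) * (C - D) = ((1 - u) * p.2 + u * q.2) * (C - D) := by
      have e1 : ((1 - t) * r.2 + t * s.2) * (C - D) =
        r.2 * (C - D) + (t * (C - D)) * (s.2 - r.2) := by ring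
      have e2 : ((1 - u) * p.2 + u * q.2) * (C - D) =
        p.2 * (C - D) + (u * (C - D)) * (q.2 - p.2) := by ring
      rw [e1, e2, hu2, ht2, hA, hC, hD]
      unfold ori
      ring
    exact mul_right_cancel₀ hE0 e

/-- a segment with natural coordinates of its endpoints `(a, b)` and `(c, d)` -/
structure Quad where
  a : ℕ
  b : ℕ
  c : ℕ
  d : ℕ

/-- the point `(x, y)` is on the left of the line -/
def left (s : Quad) (x y : ℕ) : Bool :=
  Nat.ble (Nat.succ (s.c * s.b + s.a * y + s.d * x)) (s.c * y + s.d * s.a + s.b * x)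

/-- the point `(x, y)` is on the right of the line -/
def right (s : Quad) (x y : ℕ) : Bool :=
  Nat.ble (Nat.succ (s.c * y + s.d * s.a + s.b * x)) (s.c * s.b + s.a * y + s.d * x)

noncomputable def Quad.p (s : Quad) : ℝ × ℝ := ((s.a : ℝ), (s.b : ℝ))

noncomputable def Quad.q (s : Quad) : ℝ × ℝ := ((s.c : ℝ), (s.d : ℝ))

theorem left_spec {s : Quad} {x y : ℕ} (h : left s x y = true) :
    0 < ori s.p s.q ((x : ℝ), (y : ℝ)) := by
  have h1 : s.c * s.b + s.a * y + s.d * x < s.c * y + s.d * s.a + s.b * x :=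
    Nat.le_of_ble_eq_true h
  have h2 : (s.c * s.b + s.a * y + s.d * x : ℝ) < s.c * y + s.d * s.a + s.b * x := by
    exact_mod_cast h1
  have h3 : ori s.p s.q ((x : ℝ), (y : ℝ)) = (s.c * y + s.d * s.a + s.b * x : ℝ) -
      (s.c * s.b + s.a * y + s.d * x) := by
    simp only [ori, Quad.p, Quad.q]
    ring
  rw [h3]
  linarith

theorem right_spec {s : Quad} {x y : ℕ} (h : right s x y = true) :
    ori s.p s.q ((x : ℝ), (y : ℝ)) < 0 := by
  have h1 : s.c * y + s.d * s.a + s.b * x < s.c * s.b + s.a * y + s.d * x :=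
    Nat.le_of_ble_eq_true h
  have h2 : (s.c * y + s.d * s.a + s.b * x : ℝ) < s.c * s.b + s.a * y + s.d * x := by
    exact_mod_cast h1
  have h3 : ori s.p s.q ((x : ℝ), (y : ℝ)) = (s.c * y + s.d * s.a + s.b * x : ℝ) -
      (s.c * s.b + s.a * y + s.d * x) := by
    simp only [ori, Quad.p, Quad.q]
    ring
  rw [h3]
  linarith

/-- the endpoints of `t` are on different sides of `s` -/
def opp (s t : Quad) : Bool :=
  (left s t.a t.b && right s t.c t.d) || (right s t.a t.b && left s t.c t.d)

/-- the endpoints of `t` are on the same side of `s` -/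
def same (s t : Quad) : Bool :=
  (left s t.a t.b && left s t.c t.d) || (right s t.a t.b && right s t.c t.d)

theorem opp_spec {s t : Quad} (h : opp s t = true) :
    ori s.p s.q t.p * ori s.p s.q t.q < 0 := by
  unfold opp at h
  rw [Bool.or_eq_true, Bool.and_eq_true, Bool.and_eq_true] at h
  rcases h with ⟨h1, h2⟩ | ⟨h1, h2⟩
  · exact mul_neg_of_pos_of_neg (left_spec h1) (right_spec h2)
  · exact mul_neg_of_neg_of_pos (right_spec h1) (left_spec h2)

theorem same_spec {s t : Quad} (h : same s t = true) :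
    ¬ (segment ℝ s.p s.q ∩ segment ℝ t.p t.q).Nonempty := by
  unfold same at h
  rw [Bool.or_eq_true, Bool.and_eq_true, Bool.and_eq_true] at h
  apply seg_sep
  rcases h with ⟨h1, h2⟩ | ⟨h1, h2⟩
  · exact Or.inl ⟨left_spec h1, left_spec h2⟩
  · exact Or.inr ⟨right_spec h1, right_spec h2⟩

/-- the twelve segments -/
def segList : List Quad :=
  [⟨29, 1, 13, 38⟩, ⟨0, 22, 30, 21⟩, ⟨11, 4, 27, 23⟩, ⟨28, 2, 18, 30⟩, ⟨28, 1, 39, 31⟩,
    ⟨24, 27, 48, 0⟩, ⟨65, 23, 25, 22⟩, ⟨23, 15, 54, 35⟩, ⟨2, 32, 39, 30⟩, ⟨32, 50, 22, 20⟩,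
    ⟨14, 41, 27, 22⟩, ⟨18, 29, 57, 35⟩]

/-- a copy of a segment, moved to the right -/
def shift (s : Quad) (i : ℕ) : Quad := ⟨100 * s.a + i, 100 * s.b, 100 * s.c + i, 100 * s.d⟩

def segOf (r c i : ℕ) : Quad := shift (segList.getD (4 * r + c) ⟨0, 0, 0, 0⟩) i

/-- the test for a pair of segments -/
def segTest (r c i r' c' i' : ℕ) : Bool :=
  (Nat.beq r r' && Nat.beq c c' && Nat.beq i i') ||
    cond (Nat.beq r r' ^^ Nat.beq c c')
      (opp (segOf r c i) (segOf r' c' i') && opp (segOf r' c' i') (segOf r c i))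
      (same (segOf r c i) (segOf r' c' i') || same (segOf r' c' i') (segOf r c i))

theorem segTest_all : ∀ r : Fin 3, ∀ c : Fin 4, ∀ i : Fin 6, ∀ r' : Fin 3, ∀ c' : Fin 4,
    ∀ i' : Fin 6, segTest r.val c.val i.val r'.val c'.val i'.val = true := by
  decide +kernel

theorem segNe_all : ∀ r : Fin 3, ∀ c : Fin 4, ∀ i : Fin 6,
    (segOf r.val c.val i.val).a ≠ (segOf r.val c.val i.val).c := by
  decide +kernel

theorem beq_fin {n : ℕ} (i j : Fin n) : Nat.beq i.val j.val = decide (i = j) := by
  rw [Bool.eq_iff_iff, Nat.beq_eq, decide_eq_true_iff, Fin.ext_iff]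

theorem seg_twinRook : Seg twinRook := by
  refine ⟨fun v => segment ℝ (segOf v.1.val v.2.1.val v.2.2.val).p
    (segOf v.1.val v.2.1.val v.2.2.val).q, ?_, ?_⟩
  · intro v
    refine ⟨_, _, ?_, rfl⟩
    intro h
    have h1 := (Prod.mk.inj h).1
    exact segNe_all v.1 v.2.1 v.2.2 (by exact_mod_cast h1)
  · intro u v huv
    have h := segTest_all u.1 u.2.1 u.2.2 v.1 v.2.1 v.2.2
    unfold segTest at h
    rw [beq_fin, beq_fin, beq_fin, Bool.or_eq_true] at h
    have h' := h.resolve_left (by
      intro hh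
      rw [Bool.and_eq_true, Bool.and_eq_true, decide_eq_true_iff, decide_eq_true_iff,
        decide_eq_true_iff] at hh
      exact huv (Prod.ext hh.1.1 (Prod.ext hh.1.2 hh.2)))
    show ((u.1 = v.1 ∧ u.2.1 ≠ v.2.1) ∨ (u.1 ≠ v.1 ∧ u.2.1 = v.2.1)) ↔ _
    by_cases h1 : u.1 = v.1 <;> by_cases h2 : u.2.1 = v.2.1
    · simp only [h1, h2, decide_true, Bool.xor_self, cond_false] at h'
      constructor
      · rintro (h3 | h3)
        · exact absurd h2 h3.2
        · exact absurd h1 h3.1
      · intro h3
        exfalso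
        rw [Bool.or_eq_true] at h'
        rcases h' with h' | h'
        · refine same_spec h' ?_
          simpa only [h1, h2] using h3
        · refine same_spec h' ?_
          rw [Set.inter_comm]
          simpa only [h1, h2] using h3
    · simp only [h1, h2, decide_true, decide_false, Bool.xor_false, cond_true] at h'
      rw [Bool.and_eq_true] at h'
      constructor
      · intro _
        have := seg_meet (opp_spec h'.1) (opp_spec h'.2)
        simpa only [h1] using this
      · intro _
        exact Or.inl ⟨h1, h2⟩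
    · simp only [h1, h2, decide_true, decide_false, Bool.false_xor, cond_true] at h'
      rw [Bool.and_eq_true] at h'
      constructor
      · intro _
        have := seg_meet (opp_spec h'.1) (opp_spec h'.2)
        simpa only [h2] using this
      · intro _
        exact Or.inr ⟨h1, h2⟩
    · simp only [h1, h2, decide_false, Bool.xor_self, cond_false] at h'
      constructor
      · rintro (h3 | h3)
        · exact absurd h3.1 h1
        · exact absurd h3.2 h2
      · intro h3
        exfalso
        rw [Bool.or_eq_true] at h'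
        rcases h' with h' | h'
        · exact same_spec h' h3
        · refine same_spec h' ?_
          rw [Set.inter_comm]
          exact h3

end Pool.Agent.K9h64.LG
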