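import Pool.Agent.K9h64.LG.Member

/-!
# A representation of the graph by one-bend paths of the grid
-/

set_option autoImplicit false

namespace Pool.Agent.K9h64.LG

/-- a one-bend path with corner `(a, b)`, horizontal end `(d, b)` and vertical end `(a, c)` -/
structure Bend where
  a : ℕ
  d : ℕ
  b : ℕ
  c : ℕ

def Bend.carrier (s : Bend) : Set (ℝ × ℝ) :=
  {p | (p.2 = (s.b : ℝ) ∧ p.1 ∈ Set.uIcc (s.a : ℝ) (s.d : ℝ)) ∨
      (p.1 = (s.a : ℝ) ∧ p.2 ∈ Set.uIcc (s.b : ℝ) (s.c : ℝ))}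

/-- `x` is between `a` and `d` -/
def inside (x a d : ℕ) : Bool := (Nat.ble a x && Nat.ble x d) || (Nat.ble d x && Nat.ble x a)

theorem inside_spec (x a d : ℕ) : inside x a d = true ↔ (x : ℝ) ∈ Set.uIcc (a : ℝ) (d : ℝ) := by
  unfold inside
  rw [Set.mem_uIcc, Bool.or_eq_true, Bool.and_eq_true, Bool.and_eq_true, Nat.ble_eq, Nat.ble_eq,
    Nat.ble_eq, Nat.ble_eq, Nat.cast_le, Nat.cast_le, Nat.cast_le, Nat.cast_le]

/-- the horizontal segment of `s` meets the vertical segment of `t` -/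
def hv (s t : Bend) : Bool := inside t.a s.a s.d && inside s.b t.b t.c

theorem carrier_inter {s t : Bend} (ha : s.a ≠ t.a) (hb : s.b ≠ t.b) :
    (s.carrier ∩ t.carrier).Nonempty ↔ (hv s t || hv t s) = true := by
  have ha' : (s.a : ℝ) ≠ (t.a : ℝ) := by exact_mod_cast ha
  have hb' : (s.b : ℝ) ≠ (t.b : ℝ) := by exact_mod_cast hb
  rw [Bool.or_eq_true]
  unfold hv
  rw [Bool.and_eq_true, Bool.and_eq_true, inside_spec, inside_spec, inside_spec, inside_spec]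
  constructor
  · rintro ⟨p, hp, hq⟩
    rcases hp with ⟨h1, h2⟩ | ⟨h1, h2⟩ <;> rcases hq with ⟨h3, h4⟩ | ⟨h3, h4⟩
    · exact absurd (h1.symm.trans h3) hb'
    · left
      rw [h3] at h2
      rw [h1] at h4
      exact ⟨h2, h4⟩
    · right
      rw [h1] at h4
      rw [h3] at h2
      exact ⟨h4, h2⟩
    · exact absurd (h1.symm.trans h3) ha'
  · rintro (⟨h1, h2⟩ | ⟨h1, h2⟩)
    · exact ⟨((t.a : ℝ), (s.b : ℝ)), Or.inl ⟨rfl, h1⟩, Or.inr ⟨rfl, h2⟩⟩
    · exact ⟨((s.a : ℝ), (t.b : ℝ)), Or.inr ⟨rfl, h2⟩, Or.inl ⟨rfl, h1⟩⟩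

theorem isGridPath_carrier {s : Bend} (h : s.a ≠ s.d) : IsGridPath s.carrier := by
  refine ⟨(s.a : ℤ), (s.d : ℤ), (s.b : ℤ), (s.c : ℤ), Or.inl (by exact_mod_cast h), ?_⟩
  unfold Bend.carrier
  simp only [Int.cast_natCast]

/-- the twelve paths -/
def bendList : List Bend :=
  [⟨2, 14, 7, 21⟩, ⟨5, 17, 4, 18⟩, ⟨9, 22, 1, 14⟩, ⟨1, 10, 9, 23⟩, ⟨13, 6, 17, 5⟩,
    ⟨16, 4, 16, 11⟩, ⟨7, 11, 13, 20⟩, ⟨8, 19, 15, 8⟩, ⟨12, 23, 10, 6⟩, ⟨15, 21, 12, 3⟩,
    ⟨20, 3, 19, 0⟩, ⟨18, 0, 22, 2⟩]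

/-- move a number by `i` in the direction of `y` -/
def toward (x y i : ℕ) : ℕ := cond (Nat.ble x y) (12 * x + i) (12 * x - i)

/-- a copy of a path, with the corner moved inwards -/
def copy (s : Bend) (i : ℕ) : Bend := ⟨toward s.a s.d i, 12 * s.d, toward s.b s.c i, 12 * s.c⟩

def bendOf (r c i : ℕ) : Bend := copy (bendList.getD (4 * r + c) ⟨0, 0, 0, 0⟩) i

/-- the test for a pair of paths -/
def bendTest (r c i r' c' i' : ℕ) : Bool :=
  (Nat.beq r r' && Nat.beq c c' && Nat.beq i i') ||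
    (!(Nat.beq (bendOf r c i).a (bendOf r' c' i').a) &&
      !(Nat.beq (bendOf r c i).b (bendOf r' c' i').b) &&
      ((Nat.beq r r' ^^ Nat.beq c c') ==
        (hv (bendOf r c i) (bendOf r' c' i') || hv (bendOf r' c' i') (bendOf r c i))))

theorem bendTest_all : ∀ r : Fin 3, ∀ c : Fin 4, ∀ i : Fin 6, ∀ r' : Fin 3, ∀ c' : Fin 4,
    ∀ i' : Fin 6, bendTest r.val c.val i.val r'.val c'.val i'.val = true := by
  decide +kernel

theorem bendNe_all : ∀ r : Fin 3, ∀ c : Fin 4, ∀ i : Fin 6,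
    (bendOf r.val c.val i.val).a ≠ (bendOf r.val c.val i.val).d := by
  decide +kernel

theorem oneBend_twinRook : OneBend twinRook := by
  refine ⟨fun v => (bendOf v.1.val v.2.1.val v.2.2.val).carrier, ?_, ?_⟩
  · intro v
    exact isGridPath_carrier (bendNe_all v.1 v.2.1 v.2.2)
  · intro u v huv
    have h := bendTest_all u.1 u.2.1 u.2.2 v.1 v.2.1 v.2.2
    unfold bendTest at h
    rw [beq_fin u.1, beq_fin u.2.1, beq_fin u.2.2, Bool.or_eq_true] at h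
    have h' := h.resolve_left (by
      intro hh
      rw [Bool.and_eq_true, Bool.and_eq_true, decide_eq_true_iff, decide_eq_true_iff,
        decide_eq_true_iff] at hh
      exact huv (Prod.ext hh.1.1 (Prod.ext hh.1.2 hh.2)))
    rw [Bool.and_eq_true, Bool.and_eq_true, Bool.not_eq_true', Bool.not_eq_true',
      beq_iff_eq] at h'
    obtain ⟨⟨h1, h2⟩, h3⟩ := h'
    have h1' := Nat.ne_of_beq_eq_false h1
    have h2' := Nat.ne_of_beq_eq_false h2
    rw [carrier_inter h1' h2', ← h3]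
    show ((u.1 = v.1 ∧ u.2.1 ≠ v.2.1) ∨ (u.1 ≠ v.1 ∧ u.2.1 = v.2.1)) ↔ _
    by_cases e1 : u.1 = v.1 <;> by_cases e2 : u.2.1 = v.2.1 <;> simp [e1, e2]

end Pool.Agent.K9h64.LG
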