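import Pool.Agent.K9h64.LG.Extract

/-!
# The graph has no representation by L-shapes and Gamma-shapes: conclusion
-/

set_option autoImplicit false

namespace Pool.Agent.K9h64.LG

/-- the vertex with a given code -/
def dec (n : ℕ) : Fin 3 × Fin 4 :=
  (if n % 8 = 1 then 0 else if n % 8 = 2 then 1 else 2,
    if n / 8 = 1 then 0 else if n / 8 = 2 then 1 else if n / 8 = 4 then 2 else 3)

/-- the code of a vertex -/
def enc (p : Fin 3 × Fin 4) : ℕ := 2 ^ p.1.val + 8 * 2 ^ p.2.val

theorem enc_mem : ∀ p : Fin 3 × Fin 4, enc p ∈ codes := by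
  decide +kernel

theorem dec_enc : ∀ p : Fin 3 × Fin 4, dec (enc p) = p := by
  decide +kernel

theorem dec_inj : ∀ a ∈ codes, ∀ b ∈ codes, dec a = dec b → a = b := by
  decide +kernel

theorem adj_dec : ∀ a ∈ codes, ∀ b ∈ codes, a ≠ b →
    (adj a b = true ↔ rook (dec a) (dec b)) := by
  decide +kernel

theorem row_zero : ∀ v ∈ codes, (dec v).1 = 0 → Nat.beq (Nat.land v 7) 1 = true := by
  decide +kernel

theorem col_zero : ∀ v ∈ codes, (dec v).2 = 0 → Nat.beq (Nat.land v 120) 8 = true := by
  decide +kernel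

theorem row_before : ∀ v ∈ codes, ∀ a ∈ codes, (dec a).1.val + 1 = (dec v).1.val →
    a = Nat.add (Nat.div (Nat.land v 7) 2) 8 ∨ a = Nat.add (Nat.div (Nat.land v 7) 2) 16 ∨
      a = Nat.add (Nat.div (Nat.land v 7) 2) 32 ∨ a = Nat.add (Nat.div (Nat.land v 7) 2) 64 := by
  decide +kernel

theorem col_before : ∀ v ∈ codes, ∀ a ∈ codes, (dec a).2.val + 1 = (dec v).2.val →
    a = Nat.add (Nat.div (Nat.land v 120) 2) 1 ∨ a = Nat.add (Nat.div (Nat.land v 120) 2) 2 ∨
      a = Nat.add (Nat.div (Nat.land v 120) 2) 4 := by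
  decide +kernel

theorem mem_false {a : ℕ} {U : List ℕ} (h : a ∉ U) : mem a U = false := by
  unfold mem
  rw [any'_eq, List.any_eq_false]
  intro x hx hc
  exact h (Nat.eq_of_beq_eq_true hc ▸ hx)

theorem allowed_of {v : ℕ} (hv : v ∈ codes) {U : List ℕ}
    (h1 : (dec v).1 = 0 ∨ ∃ a ∈ codes, (dec a).1.val + 1 = (dec v).1.val ∧ a ∉ U)
    (h2 : (dec v).2 = 0 ∨ ∃ a ∈ codes, (dec a).2.val + 1 = (dec v).2.val ∧ a ∉ U) :
    allowed v U = true := by
  unfold allowed
  rw [Bool.and_eq_true]
  constructor
  · rcases h1 with h1 | ⟨a, ha, ha2, ha3⟩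
    · rw [row_zero v hv h1]; rfl
    · have h4 := mem_false ha3
      rcases row_before v hv a ha ha2 with h | h | h | h
      · rw [h] at h4; rw [h4]; simp only [Bool.not_false, Bool.or_true, Bool.true_or]
      · rw [h] at h4; rw [h4]; simp only [Bool.not_false, Bool.or_true, Bool.true_or]
      · rw [h] at h4; rw [h4]; simp only [Bool.not_false, Bool.or_true, Bool.true_or]
      · rw [h] at h4; rw [h4]; simp only [Bool.not_false, Bool.or_true, Bool.true_or]
  · rcases h2 with h2 | ⟨a, ha, ha2, ha3⟩
    · rw [col_zero v hv h2]; rfl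
    · have h4 := mem_false ha3
      rcases col_before v hv a ha ha2 with h | h | h
      · rw [h] at h4; rw [h4]; simp only [Bool.not_false, Bool.or_true, Bool.true_or]
      · rw [h] at h4; rw [h4]; simp only [Bool.not_false, Bool.or_true, Bool.true_or]
      · rw [h] at h4; rw [h4]; simp only [Bool.not_false, Bool.or_true, Bool.true_or]

theorem fin_pred {n : ℕ} (i : Fin (n + 1)) (h : i ≠ 0) : ∃ j : Fin (n + 1), j < i ∧
    j.val + 1 = i.val := by
  have h1 : 0 < i.val := by
    rw [Nat.pos_iff_ne_zero]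
    intro h2
    exact h (Fin.ext h2)
  have h3 := i.isLt
  refine ⟨⟨i.val - 1, by omega⟩, ?_, ?_⟩
  · rw [Fin.lt_def]
    show i.val - 1 < i.val
    omega
  · show i.val - 1 + 1 = i.val
    omega

/-- no representation of the small graph has different abscissas at adjacent vertices -/
theorem no_baseRep (t : Fin 3 × Fin 4 → Shape) (hB : BaseRep t) : False := by
  obtain ⟨α, hα, hα2⟩ := exists_alpha t
  obtain ⟨ρ, hρ⟩ := exists_norm (p := 3) (q := 4) (by norm_num) α hα
  obtain ⟨γ, hγ⟩ := exists_norm (p := 4) (q := 3) (by norm_num) (fun x => α (x.2, x.1)) (by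
    intro x y hxy
    have := Prod.mk.inj (hα hxy)
    exact Prod.ext this.2 this.1)
  set τ : Fin 3 × Fin 4 → Fin 3 × Fin 4 := fun x => (ρ x.1, γ x.2) with hτ
  have hτinj : Function.Injective τ := by
    intro x y hxy
    have := Prod.mk.inj hxy
    exact Prod.ext (ρ.injective this.1) (γ.injective this.2)
  have hτrook : ∀ x y, rook (τ x) (τ y) ↔ rook x y := by
    intro x y
    unfold rook
    simp only [hτ, ne_eq, EmbeddingLike.apply_eq_iff_eq]
  have hG : Good (fun n => α (τ (dec n))) (fun n => height t α (τ (dec n))) codes := by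
    have hne : ∀ {u v : ℕ}, α (τ (dec u)) < α (τ (dec v)) → u ≠ v := by
      intro u v h e
      rw [e] at h
      exact lt_irrefl _ h
    refine ⟨?_, ?_, ?_, ?_, ?_⟩
    · intro a ha b hb hab
      exact dec_inj a ha b hb (hτinj (hα hab))
    · intro a ha b hb hab
      exact dec_inj a ha b hb (hτinj (height_inj hα hab))
    · intro v hv
      rcases base_R1 hB hα2 (τ (dec v)) with h | h
      · left
        intro u hu huv hlt
        exact h _ ((hτrook _ _).2 ((adj_dec u hu v hv (hne hlt)).1 huv)) hlt
      · right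
        intro u hu huv hlt
        exact h _ ((hτrook _ _).2 ((adj_dec u hu v hv (hne hlt)).1 huv)) hlt
    · intro v hv u hu w hw z hz huv h1 hwv h2 hwz h3
      have e1 := (hτrook _ _).2 ((adj_dec u hu v hv (hne h1)).1 huv)
      have e2 := (hτrook _ _).2 ((adj_dec w hw z hz (hne (lt_trans h2 h3))).1 hwz)
      have e3 : ¬ rook (τ (dec w)) (τ (dec v)) := by
        intro hc
        have := (adj_dec w hw v hv (hne h2)).2 ((hτrook _ _).1 hc)
        rw [hwv] at this
        exact absurd this (by simp)
      exact base_R2 hB hα2 _ _ _ _ e1 h1 e3 h2 e2 h3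
    · intro v hv U hU
      apply allowed_of hv
      · by_cases h0 : (dec v).1 = 0
        · exact Or.inl h0
        · right
          obtain ⟨j, hj, hj2⟩ := fin_pred (dec v).1 h0
          obtain ⟨c, hc⟩ := hρ j (dec v).1 hj (γ (dec v).2)
          refine ⟨enc (j, γ.symm c), enc_mem _, ?_, ?_⟩
          · rw [dec_enc]; exact hj2
          · intro hmem
            have h5 := hU _ hmem
            simp only [dec_enc, hτ, Equiv.apply_symm_apply] at h5
            omega
      · by_cases h0 : (dec v).2 = 0
        · exact Or.inl h0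
        · right
          obtain ⟨j, hj, hj2⟩ := fin_pred (dec v).2 h0
          obtain ⟨c, hc⟩ := hγ j (dec v).2 hj (ρ (dec v).1)
          refine ⟨enc (ρ.symm c, j), enc_mem _, ?_, ?_⟩
          · rw [dec_enc]; exact hj2
          · intro hmem
            have h5 := hU _ hmem
            simp only [dec_enc, hτ, Equiv.apply_symm_apply] at h5
            simp only at hc
            omega
  have h1 := search_sound hG
  rw [search_codes] at h1
  exact absurd h1 (by simp)

/-- the graph is not an intersection graph of L-shapes and Gamma-shapes -/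
theorem not_LGamma : ¬ LGamma twinRook := by
  rintro ⟨S, hS, hrep⟩
  choose sh hsh using fun v => exists_shape (hS v)
  have h : Rep (fun a i => sh (a.1, a.2, i)) := by
    intro a i b j hne
    have hne' : ((a.1, a.2, i) : Fin 3 × Fin 4 × Fin 6) ≠ (b.1, b.2, j) := by
      intro e
      apply hne
      have e1 := Prod.mk.inj e
      have e2 := Prod.mk.inj e1.2
      exact Prod.ext (Prod.ext e1.1 e2.1) e2.2
    have h1 := hrep _ _ hne'
    rw [hsh, hsh] at h1
    exact h1
  obtain ⟨f, hf⟩ := exists_choice h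
  apply no_baseRep (fun a => sh (a.1, a.2, f a))
  refine ⟨?_, hf⟩
  intro a b hab
  exact h a (f a) b (f b) (fun e => hab (Prod.mk.inj e).1)

end Pool.Agent.K9h64.LG
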