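import Mathlib

/-!
# The search

The vertices of `K₃ □ K₄` are coded by natural numbers, the vertex `(r, c)` by `2 ^ r + 8 * 2 ^ c`;
two different vertices are adjacent if their codes have a common binary digit. A state of the search
consists of the list `U` of the vertices which are not yet placed and the list `l` of the placed
vertices which still have a neighbour in `U`, in the order of their heights.

The list functions are defined by recursors since they are evaluated by the kernel.
-/

set_option autoImplicit false

namespace Pool.Agent.K9h64.LG

noncomputable section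

/-- adjacency of different vertices -/
def adj (a b : ℕ) : Bool := (Nat.beq (Nat.land a b) 0).not

/-- non-adjacency -/
def nadj (a b : ℕ) : Bool := Nat.beq (Nat.land a b) 0

/-- evaluation of a list before it is used -/
def fl (l : List ℕ) (k : List ℕ → Bool) : Bool :=
  List.rec (motive := fun _ => (List ℕ → Bool) → Bool) (fun k => k [])
    (fun a _ ih k => ih (fun t => k (a :: t))) l k

def all' (p : ℕ → Bool) (l : List ℕ) : Bool :=
  List.rec (motive := fun _ => Bool) true (fun a _ ih => cond (p a) ih false) l

def any' (p : ℕ → Bool) (l : List ℕ) : Bool :=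
  List.rec (motive := fun _ => Bool) false (fun a _ ih => cond (p a) true ih) l

def filter' (p : ℕ → Bool) (l : List ℕ) : List ℕ :=
  List.rec (motive := fun _ => List ℕ) [] (fun a _ ih => cond (p a) (a :: ih) ih) l

def drop' (p : ℕ → Bool) (l : List ℕ) : List ℕ :=
  List.rec (motive := fun _ => List ℕ) [] (fun a t ih => cond (p a) ih (a :: t)) l

def take' (p : ℕ → Bool) (l : List ℕ) : List ℕ :=
  List.rec (motive := fun _ => List ℕ) [] (fun a _ ih => cond (p a) (a :: ih) []) l

def revApp (l m : List ℕ) : List ℕ :=
  List.rec (motive := fun _ => List ℕ → List ℕ) (fun m => m) (fun a _ ih m => ih (a :: m)) l m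

def app' (l m : List ℕ) : List ℕ :=
  List.rec (motive := fun _ => List ℕ) m (fun a _ ih => a :: ih) l

def isNil (l : List ℕ) : Bool := List.rec (motive := fun _ => Bool) true (fun _ _ _ => false) l

/-- the members of `l` not adjacent to `x` between two neighbours of `x` -/
def btw (x : ℕ) (l : List ℕ) : List ℕ :=
  filter' (nadj x) (drop' (nadj x) (revApp (drop' (nadj x) l) []))

/-- two unplaced vertices each of which has to be placed before the other one -/
def prune (U l : List ℕ) : Bool :=
  any' (fun x => fl (btw x l) fun bx => cond (isNil bx) false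
    (any' (fun y => cond (Nat.beq x y) false
      (cond (any' (adj y) bx) (any' (adj x) (btw y l)) false)) U)) U

def mem (a : ℕ) (U : List ℕ) : Bool := any' (fun b => Nat.beq a b) U

/-- the row before the one of `v` is used, and so is the column before the one of `v` -/
def allowed (v : ℕ) (U : List ℕ) : Bool :=
  (Nat.beq (Nat.land v 7) 1 || !(mem (Nat.add (Nat.div (Nat.land v 7) 2) 8) U) ||
    !(mem (Nat.add (Nat.div (Nat.land v 7) 2) 16) U) ||
    !(mem (Nat.add (Nat.div (Nat.land v 7) 2) 32) U) ||
    !(mem (Nat.add (Nat.div (Nat.land v 7) 2) 64) U)) &&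
  (Nat.beq (Nat.land v 120) 8 || !(mem (Nat.add (Nat.div (Nat.land v 120) 2) 1) U) ||
    !(mem (Nat.add (Nat.div (Nat.land v 120) 2) 2) U) ||
    !(mem (Nat.add (Nat.div (Nat.land v 120) 2) 4) U))

/-- insert `v` at all positions; `p` is the reversed front part -/
def insAll (v : ℕ) (k : List ℕ → Bool) (s : List ℕ) : List ℕ → Bool :=
  List.rec (motive := fun _ => List ℕ → Bool) (fun p => k (revApp p [v]))
    (fun a s ih p => cond (k (revApp p (v :: a :: s))) (ih (a :: p)) false) s

/-- insert `v` before and after the block of its neighbours, with which `m` starts -/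
def tryBlk (v : ℕ) (k : List ℕ → Bool) (p m : List ℕ) : Bool :=
  fl (take' (adj v) m) fun B => fl (drop' (adj v) m) fun s =>
    cond (all' (nadj v) s) (cond (k (app' p (v :: app' B s))) (k (app' p (app' B (v :: s)))) false)
      true

def tryAll (v : ℕ) (k : List ℕ → Bool) (l : List ℕ) : Bool :=
  fl (drop' (nadj v) l) fun m =>
    cond (isNil m) (insAll v k l []) (fl (take' (nadj v) l) fun p => tryBlk v k p m)

/-- `true` means that the state cannot be completed -/
def search (n : ℕ) : List ℕ → List ℕ → Bool :=
  Nat.rec (motive := fun _ => List ℕ → List ℕ → Bool) (fun _ _ => false)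
  (fun _ ih U l => cond (isNil U) false (cond (prune U l) true (all' (fun v =>
      cond (allowed v U)
      (fl (filter' (fun a => (Nat.beq a v).not) U) fun U' =>
      tryAll v (fun l' => fl (filter' (fun w => any' (adj w) U') l') fun l'' => ih U' l'') l)
      true) U))) n

/-- the codes of the vertices -/
def codes : List ℕ := [9, 17, 33, 65, 10, 18, 34, 66, 12, 20, 36, 68]

/-! ### evaluation of the list functions -/

theorem fl_eq (l : List ℕ) : ∀ k : List ℕ → Bool, fl l k = k l := by
  induction l with
  | nil => intro k; rfl
  | cons a l ih => intro k; exact ih _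

theorem all'_eq (p : ℕ → Bool) (l : List ℕ) : all' p l = l.all p := by
  induction l with
  | nil => rfl
  | cons a l ih =>
    have h : all' p (a :: l) = cond (p a) (all' p l) false := rfl
    rw [h, ih, List.all_cons]
    cases p a <;> rfl

theorem any'_eq (p : ℕ → Bool) (l : List ℕ) : any' p l = l.any p := by
  induction l with
  | nil => rfl
  | cons a l ih =>
    have h : any' p (a :: l) = cond (p a) true (any' p l) := rfl
    rw [h, ih, List.any_cons]
    cases p a <;> rfl

theorem filter'_eq (p : ℕ → Bool) (l : List ℕ) : filter' p l = l.filter p := by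
  induction l with
  | nil => rfl
  | cons a l ih =>
    have h : filter' p (a :: l) = cond (p a) (a :: filter' p l) (filter' p l) := rfl
    rw [h, ih, List.filter_cons]
    cases p a <;> rfl

theorem drop'_eq (p : ℕ → Bool) (l : List ℕ) : drop' p l = l.dropWhile p := by
  induction l with
  | nil => rfl
  | cons a l ih =>
    have h : drop' p (a :: l) = cond (p a) (drop' p l) (a :: l) := rfl
    rw [h, ih, List.dropWhile_cons]
    cases p a <;> rfl

theorem take'_eq (p : ℕ → Bool) (l : List ℕ) : take' p l = l.takeWhile p := by
  induction l with
  | nil => rfl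
  | cons a l ih =>
    have h : take' p (a :: l) = cond (p a) (a :: take' p l) [] := rfl
    rw [h, ih, List.takeWhile_cons]
    cases p a <;> rfl

theorem revApp_eq (l : List ℕ) : ∀ m : List ℕ, revApp l m = l.reverse ++ m := by
  induction l with
  | nil => intro m; rfl
  | cons a l ih =>
    intro m
    have h : revApp (a :: l) m = revApp l (a :: m) := rfl
    rw [h, ih]
    simp

theorem app'_eq (l m : List ℕ) : app' l m = l ++ m := by
  induction l with
  | nil => rfl
  | cons a l ih =>
    have h : app' (a :: l) m = a :: app' l m := rfl
    rw [h, ih]; rfl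

theorem isNil_eq (l : List ℕ) : isNil l = l.isEmpty := by
  cases l <;> rfl

end

end Pool.Agent.K9h64.LG
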